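import Mathlib

/-!
# The hybrid argument, for one finite domain
-/

set_option autoImplicit false

namespace Pool.Agent.GAvd

open Finset
open scoped Classical

/-- the truth value as a number -/
noncomputable def tv (F : Prop) : ℕ := if F then 1 else 0

/-- the number with the binary digits `F (digit i of p in base D)`, `i < k` -/
noncomputable def enc (F : ℕ → Prop) (D : ℕ) : ℕ → ℕ → ℕ
  | 0, _ => 0
  | k + 1, p => tv (F (p % D)) + 2 * enc F D k (p / D)

theorem tv_lt (F : Prop) : tv F < 2 := by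
  unfold tv; split_ifs <;> omega

theorem enc_lt (F : ℕ → Prop) (D k p : ℕ) : enc F D k p < 2 ^ k := by
  induction k generalizing p with
  | zero => simp [enc]
  | succ k ih =>
    have h1 := ih (p / D)
    have h2 := tv_lt (F (p % D))
    simp only [enc, pow_succ]
    omega

/-- number of pairs `(p, b)` satisfying `q` -/
noncomputable def nn (D k : ℕ) (q : ℕ → ℕ → Prop) : ℕ :=
  ∑ p ∈ range (D ^ k), ∑ b ∈ range (2 ^ k), (if q p b then 1 else 0)

/-- number of `p` such that `(p, enc p)` satisfies `q` -/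
noncomputable def tt' (F : ℕ → Prop) (D k : ℕ) (q : ℕ → ℕ → Prop) : ℕ :=
  ∑ p ∈ range (D ^ k), (if q p (enc F D k p) then 1 else 0)

/-- the advantage -/
noncomputable def gap (F : ℕ → Prop) (D k : ℕ) (q : ℕ → ℕ → Prop) : ℝ :=
  (nn D k q : ℝ) - 2 ^ k * (tt' F D k q : ℝ)

theorem sum_split (D M : ℕ) (f : ℕ → ℕ) :
    ∑ p ∈ range (D * M), f p = ∑ u ∈ range D, ∑ p ∈ range M, f (u + D * p) := by
  rw [Finset.sum_comm]
  induction M with
  | zero => simp
  | succ M ih =>
    rw [Nat.mul_succ, Finset.sum_range_add, ih, Finset.sum_range_succ]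
    congr 1
    refine Finset.sum_congr rfl fun u _ => ?_
    rw [Nat.add_comm]

/-- fix the first coordinate -/
def fixc (D : ℕ) (q : ℕ → ℕ → Prop) (u β : ℕ) : ℕ → ℕ → Prop :=
  fun p b => q (u + D * p) (β + 2 * b)

theorem nn_succ (D k : ℕ) (q : ℕ → ℕ → Prop) :
    nn D (k + 1) q = ∑ u ∈ range D, (nn D k (fixc D q u 0) + nn D k (fixc D q u 1)) := by
  unfold nn
  rw [pow_succ', sum_split D _]
  refine Finset.sum_congr rfl fun u _ => ?_
  rw [← Finset.sum_add_distrib]
  refine Finset.sum_congr rfl fun p _ => ?_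
  rw [pow_succ', sum_split 2 _, Finset.sum_range_succ, Finset.sum_range_one]
  rfl

theorem tt_succ (F : ℕ → Prop) (D k : ℕ) (hD : 0 < D) (q : ℕ → ℕ → Prop) :
    tt' F D (k + 1) q = ∑ u ∈ range D, tt' F D k (fixc D q u (tv (F u))) := by
  unfold tt'
  rw [pow_succ', sum_split D _]
  refine Finset.sum_congr rfl fun u hu => ?_
  have hu' := mem_range.1 hu
  refine Finset.sum_congr rfl fun p _ => ?_
  have h1 : (u + D * p) % D = u := by rw [Nat.add_mul_mod_self_left, Nat.mod_eq_of_lt hu']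
  have h2 : (u + D * p) / D = p := by
    rw [Nat.add_mul_div_left _ _ hD, Nat.div_eq_of_lt hu', zero_add]
  simp only [enc, h1, h2, fixc]
  congr

/-- the gain of the first coordinate -/
noncomputable def first (F : ℕ → Prop) (D k : ℕ) (q : ℕ → ℕ → Prop) : ℝ :=
  ∑ u ∈ range D, ((nn D k (fixc D q u 0) : ℝ) + nn D k (fixc D q u 1)
    - 2 * nn D k (fixc D q u (tv (F u))))

theorem gap_succ (F : ℕ → Prop) (D k : ℕ) (hD : 0 < D) (q : ℕ → ℕ → Prop) :
    gap F D (k + 1) q = first F D k q + 2 * ∑ u ∈ range D, gap F D k (fixc D q u (tv (F u))) := by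
  unfold gap first
  rw [nn_succ D k, tt_succ F D k hD, Finset.mul_sum, ← Finset.sum_add_distrib]
  push_cast
  rw [Finset.mul_sum, ← Finset.sum_sub_distrib]
  refine Finset.sum_congr rfl fun u _ => ?_
  ring

theorem gap_zero (F : ℕ → Prop) (D : ℕ) (q : ℕ → ℕ → Prop) : gap F D 0 q = 0 := by
  unfold gap nn tt'
  simp only [pow_zero, Finset.sum_range_one, enc]
  by_cases h : q 0 0 <;> simp [h]

/-- the difference of the two answers at `u` -/
noncomputable def dif (F : ℕ → Prop) (D : ℕ) (q : ℕ → ℕ → Prop) (p b u : ℕ) : ℝ :=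
  (if q (u + D * p) (0 + 2 * b) then 1 else 0) + (if q (u + D * p) (1 + 2 * b) then 1 else 0)
    - 2 * (if q (u + D * p) (tv (F u) + 2 * b) then 1 else 0)

theorem first_eq (F : ℕ → Prop) (D k : ℕ) (q : ℕ → ℕ → Prop) :
    first F D k q = ∑ p ∈ range (D ^ k), ∑ b ∈ range (2 ^ k), ∑ u ∈ range D, dif F D q p b u := by
  have h : ∀ p ∈ range (D ^ k), ∑ b ∈ range (2 ^ k), ∑ u ∈ range D, dif F D q p b u =
      ∑ u ∈ range D, ∑ b ∈ range (2 ^ k), dif F D q p b u := fun p _ => Finset.sum_comm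
  rw [Finset.sum_congr rfl h, Finset.sum_comm]
  unfold first nn
  refine Finset.sum_congr rfl fun u _ => ?_
  push_cast
  rw [Finset.mul_sum, ← Finset.sum_add_distrib, ← Finset.sum_sub_distrib]
  refine Finset.sum_congr rfl fun p _ => ?_
  rw [Finset.mul_sum, ← Finset.sum_add_distrib, ← Finset.sum_sub_distrib]
  rfl

/-- If the first coordinate gains, then it does so for one choice of the others. -/
theorem first_exists (F : ℕ → Prop) (D k : ℕ) (q : ℕ → ℕ → Prop) (τ : ℝ) (hD : 0 < D)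
    (h : τ * 2 ^ (k + 1) * (D : ℝ) ^ (k + 1) ≤ first F D k q) :
    ∃ p b, p < D ^ k ∧ b < 2 ^ k ∧ 2 * τ * D ≤ ∑ u ∈ range D, dif F D q p b u := by
  by_contra hcon
  push Not at hcon
  rw [first_eq] at h
  have h1 : ∑ p ∈ range (D ^ k), ∑ b ∈ range (2 ^ k), ∑ u ∈ range D, dif F D q p b u <
      ∑ p ∈ range (D ^ k), ∑ b ∈ range (2 ^ k), (2 * τ * (D : ℝ)) := by
    apply Finset.sum_lt_sum_of_nonempty
    · rw [nonempty_range_iff]; positivity
    · intro p hp
      apply Finset.sum_lt_sum_of_nonempty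
      · rw [nonempty_range_iff]; positivity
      · intro b hb
        exact hcon p b (mem_range.1 hp) (mem_range.1 hb)
  simp only [sum_const, card_range, nsmul_eq_mul] at h1
  push_cast at h1
  have h2 : (D : ℝ) ^ k * (2 ^ k * (2 * τ * D)) = τ * 2 ^ (k + 1) * (D : ℝ) ^ (k + 1) := by ring
  linarith

/-- the predictor -/
def prd (D : ℕ) (q : ℕ → ℕ → Prop) (p b : ℕ) (g : Prop) (u : ℕ) : Prop :=
  (q (u + D * p) (0 + 2 * b) ∧ ¬ q (u + D * p) (1 + 2 * b)) ∨
    ((q (u + D * p) (0 + 2 * b) ↔ q (u + D * p) (1 + 2 * b)) ∧ g)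

theorem prd_sum (F : ℕ → Prop) (D : ℕ) (q : ℕ → ℕ → Prop) (p b u : ℕ) :
    ((if ¬ (prd D q p b True u ↔ F u) then 1 else 0 : ℝ) +
      (if ¬ (prd D q p b False u ↔ F u) then 1 else 0)) = 1 - dif F D q p b u := by
  unfold prd dif
  by_cases hF : F u
  · rw [show tv (F u) = 1 from if_pos hF]
    generalize q (u + D * p) (0 + 2 * b) = A
    generalize q (u + D * p) (1 + 2 * b) = B
    by_cases hA : A <;> by_cases hB : B <;> simp [hA, hB, hF] <;> norm_num
  · rw [show tv (F u) = 0 from if_neg hF]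
    generalize q (u + D * p) (0 + 2 * b) = A
    generalize q (u + D * p) (1 + 2 * b) = B
    by_cases hA : A <;> by_cases hB : B <;> simp [hA, hB, hF] <;> norm_num

theorem prd_exists (F : ℕ → Prop) (D : ℕ) (q : ℕ → ℕ → Prop) (p b : ℕ) (τ : ℝ)
    (h : 2 * τ * D ≤ ∑ u ∈ range D, dif F D q p b u) :
    ∃ g : Prop, (#{u ∈ range D | ¬ (prd D q p b g u ↔ F u)} : ℝ) ≤ (1 / 2 - τ) * D := by
  have h1 : (#{u ∈ range D | ¬ (prd D q p b True u ↔ F u)} : ℝ) +
      #{u ∈ range D | ¬ (prd D q p b False u ↔ F u)} = D - ∑ u ∈ range D, dif F D q p b u := by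
    rw [Finset.card_filter, Finset.card_filter]
    push_cast
    rw [← Finset.sum_add_distrib, Finset.sum_congr rfl (fun u _ => prd_sum F D q p b u),
      Finset.sum_sub_distrib]
    simp
  by_contra hcon
  have h2 := not_le.1 (fun h => hcon ⟨True, h⟩)
  have h3 := not_le.1 (fun h => hcon ⟨False, h⟩)
  linarith

end Pool.Agent.GAvd
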