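import Mathlib
import Pool.Agent.GAvg.AdvDefs
import Pool.Agent.GAvg.E2Tools
import Pool.Agent.GAvd.Count

/-!
# Coding tuples of answers of a family in one function of class `E2`
-/

set_option autoImplicit false

namespace Pool.Agent.GAvd

open Finset Filter Pool.Agent.Grz Pool.Agent.GAvg
open scoped Classical

/-- `y` is in the window of `n` -/
def Win (e E n y : ℕ) : Prop := (∃ j, n = 2 ^ (e * j)) ∧ n ^ E ≤ y ∧ y < (2 ^ e * n) ^ E

theorem powConst {n : ℕ} {f : (Fin n → ℕ) → ℕ} (hf : E2 n f) (k : ℕ) :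
    E2 n (fun v => f v ^ k) := by
  induction k with
  | zero => simpa using E2.const (n := n) 1
  | succ k ih =>
    refine (ih.mul hf).congr ?_
    intro v
    rw [pow_succ]

theorem isPow_iff {e : ℕ} (n : ℕ) :
    (∃ j, n = 2 ^ (e * j)) ↔ (n = 2 ^ Nat.log 2 n ∧ e ∣ Nat.log 2 n) := by
  constructor
  · rintro ⟨j, rfl⟩
    rw [Nat.log_pow (by norm_num)]
    exact ⟨rfl, dvd_mul_right _ _⟩
  · rintro ⟨h1, j, h2⟩
    exact ⟨j, by rw [← h2]; exact h1⟩

theorem starPow {n : ℕ} {f : (Fin n → ℕ) → ℕ} (hf : E2 n f) (e : ℕ) :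
    E2Star n (fun v => ∃ j, f v = 2 ^ (e * j)) := by
  have h2 : E2 n (fun v => 2 ^ Nat.log 2 (f v)) := by
    refine E2.powBdd (b := fun _ => 2) (e := fun v => Nat.log 2 (f v)) (B := fun v => f v + 1)
      (E2.const 2) (E2.log2 hf) (hf.add (E2.const 1)) ?_
    intro v
    rcases Nat.eq_zero_or_pos (f v) with h0 | h0
    · rw [h0]; simp
    · exact (Nat.pow_log_le_self 2 h0.ne').trans (Nat.le_succ _)
  refine ((E2Star.eqFun hf h2).and (E2Star.dvd (E2.const e) (E2.log2 hf))).of_iff ?_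
  intro v
  exact isPow_iff (f v)

theorem win_unique {e E n n' y : ℕ} (h : Win e E n y) (h' : Win e E n' y) : n = n' := by
  obtain ⟨⟨j, hj⟩, h1, h2⟩ := h
  obtain ⟨⟨j', hj'⟩, h3, h4⟩ := h'
  have key : ∀ a b : ℕ, (2 ^ (e * a)) ^ E < (2 ^ e * 2 ^ (e * b)) ^ E → a ≤ b := by
    intro a b hab
    have h6 := lt_of_pow_lt_pow_left₀ E (Nat.zero_le _) hab
    rw [← pow_add] at h6
    have h7 := (Nat.pow_lt_pow_iff_right (a := 2) (by norm_num)).1 h6
    have h8 : e * a < e * (b + 1) := by
      calc e * a < e + e * b := h7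
        _ = e * (b + 1) := by ring
    have := Nat.lt_of_mul_lt_mul_left h8
    omega
  have e1 : j' ≤ j := key j' j (by rw [← hj', ← hj]; exact h3.trans_lt h2)
  have e2 : j ≤ j' := key j j' (by rw [← hj', ← hj]; exact h1.trans_lt h4)
  have : j = j' := le_antisymm e2 e1
  rw [hj, hj', this]

theorem enc_mod {F : ℕ → Prop} {D : ℕ} (k x : ℕ) : enc F D k (x % D ^ k) = enc F D k x := by
  induction k generalizing x with
  | zero => simp [enc]
  | succ k ih =>
    simp only [enc]
    have h1 : x % D ^ (k + 1) % D = x % D := by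
      rw [pow_succ']
      exact Nat.mod_mul_right_mod _ _ _
    have h2 : x % D ^ (k + 1) / D = x / D % D ^ k := by
      rw [pow_succ', Nat.mod_mul_right_div_self]
    rw [h1, h2, ih]

theorem enc_sum {F : ℕ → Prop} {D : ℕ} (k x : ℕ) :
    enc F D k x = ∑ i ∈ range k, 2 ^ i * tv (F (x / D ^ i % D)) := by
  induction k generalizing x with
  | zero => simp [enc]
  | succ k ih =>
    rw [Finset.sum_range_succ']
    simp only [enc, ih, pow_zero, one_mul, Nat.div_one, Finset.mul_sum]
    rw [add_comm]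
    congr 1
    refine Finset.sum_congr rfl fun i _ => ?_
    rw [Nat.div_div_eq_div_mul, pow_succ' D i, pow_succ' 2 i]
    ring

/-- bit number `i` of the code -/
def bitP (F : ℕ → ℕ → Prop) (D : ℕ → ℕ) (e E i y : ℕ) : Prop :=
  ∃ n, n ≤ y ∧ (Win e E n y ∧ F n ((y - n ^ E) / D n ^ i % D n))

theorem bitP_iff {F : ℕ → ℕ → Prop} {D : ℕ → ℕ} {e E i n y : ℕ} (hE : 0 < E) (h : Win e E n y) :
    bitP F D e E i y ↔ F n ((y - n ^ E) / D n ^ i % D n) := by
  constructor
  · rintro ⟨n', _, h1, h2⟩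
    rw [win_unique h1 h] at h2
    exact h2
  · intro h1
    exact ⟨n, (Nat.le_self_pow hE.ne' n).trans h.2.1, h, h1⟩

theorem star_bitP {F : ℕ → ℕ → Prop} {D : ℕ → ℕ} (h : Fam F D) (e E i : ℕ) :
    E2Star 1 (fun v => bitP F D e E i (v 0)) := by
  refine E2Star.bex (n := 1) (b := fun v => v 0) (P := fun n v => Win e E n (v 0) ∧
    F n ((v 0 - n ^ E) / D n ^ i % D n)) (E2.proj 0) ?_
  have h0 : E2 2 (fun w => w 0) := E2.proj 0
  have h1 : E2 2 (fun w => w (Fin.succ 0)) := E2.proj _
  have hpow := powConst h0 E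
  have hD : E2 2 (fun w => D (w 0)) := E2.comp1 (g := D) h.dom h0
  have hF : E2Star 2 (fun w => F (w 0) ((w (Fin.succ 0) - w 0 ^ E) / D (w 0) ^ i % D (w 0))) := by
    have := h.star.subst (n := 2)
      (h := ![fun w => w 0, fun w => (w (Fin.succ 0) - w 0 ^ E) / D (w 0) ^ i % D (w 0)]) (by
        intro i
        fin_cases i
        · exact h0
        · exact ((h1.sub hpow).div (powConst hD _)).mod hD)
    simpa using this
  exact ((starPow h0 e).and ((E2Star.leFun hpow h1).and
    (E2Star.ltFun h1 (powConst ((E2.const (2 ^ e)).mul h0) E)))).and hF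

theorem exists_code {F : ℕ → ℕ → Prop} {D : ℕ → ℕ} (h : Fam F D) (e E k : ℕ) (hE : 0 < E) :
    ∃ G : ℕ → ℕ, E2 1 (fun v => G (v 0)) ∧ (∀ y, G y < 2 ^ k) ∧
      ∀ n y, Win e E n y → G y = enc (F n) (D n) k (y - n ^ E) := by
  refine ⟨fun y => ∑ i ∈ range k, 2 ^ i * tv (bitP F D e E i y), ?_, ?_, ?_⟩
  · induction k with
    | zero => simpa using E2.const (n := 1) 0
    | succ k ih =>
      have h1 : E2 1 (fun v => 2 ^ k * tv (bitP F D e E k (v 0))) := by
        refine (E2.const (2 ^ k)).mul ?_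
        exact E2.ite (star_bitP h e E k) (E2.const 1) (E2.const 0)
      refine (ih.add h1).congr ?_
      intro v
      exact Finset.sum_range_succ _ _
  · intro y
    have : ∀ k, ∑ i ∈ range k, 2 ^ i * tv (bitP F D e E i y) < 2 ^ k := by
      intro k
      induction k with
      | zero => simp
      | succ k ih =>
        rw [Finset.sum_range_succ, pow_succ]
        have := tv_lt (bitP F D e E k y)
        have h2 : 2 ^ k * tv (bitP F D e E k y) ≤ 2 ^ k * 1 := Nat.mul_le_mul_left _ (by omega)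
        omega
    exact this k
  · intro n y hw
    rw [enc_sum]
    refine Finset.sum_congr rfl fun i _ => ?_
    unfold tv
    simp only [bitP_iff hE hw]

/-- in the block number `i` of the window of `n` the code of `T + i D ^ k + p` is `enc p` -/
theorem code_block {F : ℕ → ℕ → Prop} {D : ℕ → ℕ} {e E k : ℕ} {G : ℕ → ℕ}
    (hG : ∀ n y, Win e E n y → G y = enc (F n) (D n) k (y - n ^ E)) {n i p : ℕ}
    (hn : ∃ j, n = 2 ^ (e * j)) (hp : p < D n ^ k)
    (hi : n ^ E + (i + 1) * D n ^ k ≤ (2 ^ e * n) ^ E) :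
    G (n ^ E + i * D n ^ k + p) = enc (F n) (D n) k p := by
  have h1 : Win e E n (n ^ E + i * D n ^ k + p) := by
    refine ⟨hn, by omega, ?_⟩
    have : (i + 1) * D n ^ k = i * D n ^ k + D n ^ k := by ring
    omega
  rw [hG n _ h1, ← enc_mod k (n ^ E + i * D n ^ k + p - n ^ E)]
  congr 1
  have : n ^ E + i * D n ^ k + p - n ^ E = p + i * D n ^ k := by omega
  rw [this, Nat.add_mul_mod_self_right, Nat.mod_eq_of_lt hp]

theorem count_inst {p q : ℕ → Prop} {i₁ : DecidablePred p} {i₂ : DecidablePred q}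
    {d : ℕ} (h : ∀ x, x < d → (p x ↔ q x)) : @Nat.count p i₁ d = @Nat.count q i₂ d := by
  have : ∀ m ≤ d, @Nat.count p i₁ m = @Nat.count q i₂ m := by
    intro m hm
    induction m with
    | zero => simp
    | succ m ih =>
      rw [Nat.count_succ, Nat.count_succ, ih (by omega)]
      congr 1
      have := h m (by omega)
      by_cases hp : p m
      · rw [if_pos hp, if_pos (this.1 hp)]
      · rw [if_neg hp, if_neg (fun hq => hp (this.2 hq))]
  exact this d le_rfl

theorem Fam.polyB {F : ℕ → ℕ → Prop} {D : ℕ → ℕ} (h : Fam F D) : PolyB D := by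
  obtain ⟨d, hd⟩ := h.poly
  exact ⟨d, Eventually.of_forall hd⟩

private theorem count_split (p : ℕ → Prop) [DecidablePred p] (T d K : ℕ) :
    Nat.count p (T + K * d) = Nat.count p T +
      ∑ i ∈ range K, Nat.count (fun k => p (T + i * d + k)) d := by
  induction K with
  | zero => simp
  | succ K ih =>
    rw [sum_range_succ, ← add_assoc, ← ih, ← Nat.count_add]
    congr 1
    ring

theorem exists_block (p : ℕ → Prop) {T d N : ℕ} {α γ : ℝ} (hd : 0 < d)
    (hTN : T ≤ N) (hN : 0 < N) (hα : 0 ≤ α) (hγ : 0 < γ)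
    (hT : (T : ℝ) ≤ γ / 8 * N) (hdN : (d : ℝ) ≤ γ / 8 * N)
    (h : (α + γ) * (N : ℝ) ≤ (Nat.count p N : ℝ)) :
    ∃ i : ℕ, T + (i + 1) * d ≤ N ∧
      (α + γ / 2) * (d : ℝ) ≤ (Nat.count (fun k => p (T + i * d + k)) d : ℝ) := by
  by_contra hcon
  push Not at hcon
  have hK : T + (N - T) / d * d ≤ N := by
    have := Nat.div_mul_le_self (N - T) d
    omega
  have hmod : N = T + (N - T) / d * d + (N - T) % d := by
    have := Nat.div_add_mod' (N - T) d
    omega
  have hmd : (N - T) % d < d := Nat.mod_lt _ hd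
  set K := (N - T) / d with hKdef
  have h1 : Nat.count p N ≤ T + (∑ i ∈ range K, Nat.count (fun k => p (T + i * d + k)) d) + d := by
    have h2 : Nat.count p N = Nat.count p (T + K * d) +
        Nat.count (fun k => p (T + K * d + k)) ((N - T) % d) := by
      conv_lhs => rw [hmod]
      rw [Nat.count_add]
    rw [h2, count_split]
    have h3 := Nat.count_le (p := p) (n := T)
    have h4 := Nat.count_le (p := fun k => p (T + K * d + k)) (n := (N - T) % d)
    omega
  have h5 : ∀ i ∈ range K, (Nat.count (fun k => p (T + i * d + k)) d : ℝ) ≤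
      (α + γ / 2) * (d : ℝ) := by
    intro i hi
    refine (hcon i ?_).le
    have hi' : i + 1 ≤ K := mem_range.1 hi
    have : (i + 1) * d ≤ K * d := Nat.mul_le_mul_right d hi'
    omega
  have h6 := Finset.sum_le_sum h5
  rw [sum_const, card_range, nsmul_eq_mul] at h6
  have h7 : (Nat.count p N : ℝ) ≤ T + (∑ i ∈ range K,
      (Nat.count (fun k => p (T + i * d + k)) d : ℝ)) + d := by
    exact_mod_cast h1
  have h8 : (T : ℝ) + K * d ≤ N := by exact_mod_cast hK
  have hN' : (0 : ℝ) < N := by exact_mod_cast hN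
  have hT' : (0 : ℝ) ≤ T := Nat.cast_nonneg _
  have h9 : (K : ℝ) * ((α + γ / 2) * d) ≤ (α + γ / 2) * N := by
    have : (K : ℝ) * d ≤ N := by linarith
    have h10 : 0 ≤ α + γ / 2 := by linarith
    calc (K : ℝ) * ((α + γ / 2) * d) = (α + γ / 2) * (K * d) := by ring
      _ ≤ (α + γ / 2) * N := mul_le_mul_of_nonneg_left this h10
  nlinarith

end Pool.Agent.GAvd
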