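import Mathlib
import Pool.Agent.GAvg.FamHad
import Pool.Agent.GAvd.Code

/-!
# One function of class `E2` that contains the codes of the parities of `t` copies for all `t`

The window number `i` is `[2 ^ (i ^ 2), 2 ^ ((i + 1) ^ 2))`. It is used for the index
`(Nat.unpair i).1`, which codes the number of copies `tj` and the number of bits `kj`.
-/

set_option autoImplicit false

namespace Pool.Agent.GAvd

open Finset Filter Pool.Agent.Grz Pool.Agent.GAvg
open scoped Classical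

theorem tv_congr {A B : Prop} (h : A ↔ B) : tv A = tv B := by rw [propext h]

/-- number of copies -/
def tj (j : ℕ) : ℕ := (Nat.unpair j).1 + 1

/-- number of bits -/
def kj (j : ℕ) : ℕ := (Nat.unpair j).2 + 1

/-- scale divisor -/
def wj (d j : ℕ) : ℕ := 2 * (d * (tj j * kj j)) + 1

/-- number of the window of `y` -/
def idx (y : ℕ) : ℕ := Nat.sqrt (Nat.log 2 y)

/-- scale used in the window number `i` -/
def scal (d i : ℕ) : ℕ := 2 ^ (i ^ 2 / wj d (Nat.unpair i).1)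

/-- parity of `t` copies -/
def par (F : ℕ → Prop) (D t w : ℕ) : Prop := Odd (#{i : Fin t | F (dig D w i)})

/-- the code -/
noncomputable def code (F : ℕ → ℕ → Prop) (D : ℕ → ℕ) (d y : ℕ) : ℕ :=
  ∑ b ∈ range (kj (Nat.unpair (idx y)).1), 2 ^ Nat.min b (idx y) *
    tv (Odd (#{a ∈ range (tj (Nat.unpair (idx y)).1) | F (scal d (idx y))
      (dig (D (scal d (idx y))) (y - 2 ^ (idx y) ^ 2) (b * tj (Nat.unpair (idx y)).1 + a))}))

/-! ### the code is in `E2` -/

theorem E2.ofDFun {n : ℕ} {f : (Fin n → ℕ) → ℕ} (hf : DFun n f) : E2 n f := by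
  obtain ⟨hg, p, hp⟩ := hf
  exact E2.ofGraph (E2.evalPoly p) hp hg.e2Star

theorem E2.unpair1 {n : ℕ} {f : (Fin n → ℕ) → ℕ} (hf : E2 n f) :
    E2 n (fun v => (Nat.unpair (f v)).1) :=
  E2.comp1 (g := fun x => (Nat.unpair x).1) (E2.ofDFun (DFun.proj 0).unpair1) hf

theorem E2.unpair2 {n : ℕ} {f : (Fin n → ℕ) → ℕ} (hf : E2 n f) :
    E2 n (fun v => (Nat.unpair (f v)).2) :=
  E2.comp1 (g := fun x => (Nat.unpair x).2) (E2.ofDFun (DFun.proj 0).unpair2) hf

theorem E2.sqrt {n : ℕ} {f : (Fin n → ℕ) → ℕ} (hf : E2 n f) :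
    E2 n (fun v => Nat.sqrt (f v)) := by
  refine E2.ofGraph (b := f) hf (fun v => Nat.sqrt_le_self _) ?_
  have h0 : E2 (n + 1) (fun w => w 0) := E2.proj 0
  refine ((E2Star.leFun (h0.mul h0) hf.weak).and
    (E2Star.ltFun hf.weak ((h0.add (E2.const 1)).mul (h0.add (E2.const 1))))).of_iff ?_
  intro w
  constructor
  · intro h
    rw [h]
    exact ⟨Nat.sqrt_le _, Nat.lt_succ_sqrt _⟩
  · rintro ⟨h1, h2⟩
    have h3 := Nat.le_sqrt.2 h1
    have h4 := Nat.sqrt_lt.2 h2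
    omega

theorem two_pow_le {y e : ℕ} (h : e ≤ idx y ^ 2) : 2 ^ e ≤ y + 1 := by
  have h1 : idx y ^ 2 ≤ Nat.log 2 y := Nat.sqrt_le' _
  rcases Nat.eq_zero_or_pos y with h0 | h0
  · subst h0
    have : e = 0 := by
      have h2 : idx 0 = 0 := by simp [idx]
      rw [h2] at h
      simpa using h
    simp [this]
  · calc 2 ^ e ≤ 2 ^ Nat.log 2 y := Nat.pow_le_pow_right (by norm_num) (h.trans h1)
      _ ≤ y := Nat.pow_log_le_self 2 h0.ne'
      _ ≤ y + 1 := Nat.le_succ _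

theorem e2_code {F : ℕ → ℕ → Prop} {D : ℕ → ℕ} (h : Fam F D) (d : ℕ) :
    E2 1 (fun v => code F D d (v 0)) := by
  have hidx : ∀ {n : ℕ} {f : (Fin n → ℕ) → ℕ}, E2 n f → E2 n (fun v => idx (f v)) :=
    fun hf => E2.sqrt (E2.log2 hf)
  have htj : ∀ {n : ℕ} {f : (Fin n → ℕ) → ℕ}, E2 n f → E2 n (fun v => tj (f v)) :=
    fun hf => (E2.unpair1 hf).add (E2.const 1)
  have hkj : ∀ {n : ℕ} {f : (Fin n → ℕ) → ℕ}, E2 n f → E2 n (fun v => kj (f v)) :=
    fun hf => (E2.unpair2 hf).add (E2.const 1)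
  have hpow : ∀ {n : ℕ} {e y : (Fin n → ℕ) → ℕ}, E2 n e → E2 n y →
      (∀ v, e v ≤ idx (y v) ^ 2) → E2 n (fun v => 2 ^ e v) := by
    intro n e y he hy hle
    exact E2.powBdd (b := fun _ => 2) (e := e) (B := fun v => y v + 1) (E2.const 2) he
      (hy.add (E2.const 1)) (fun v => two_pow_le (hle v))
  have hscal : ∀ {n : ℕ} {y : (Fin n → ℕ) → ℕ}, E2 n y → E2 n (fun v => scal d (idx (y v))) := by
    intro n y hy
    have h1 : E2 n (fun v => idx (y v) ^ 2 / wj d (Nat.unpair (idx (y v))).1) := by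
      refine (powConst (hidx hy) 2).div ?_
      exact ((E2.const 2).mul ((E2.const d).mul ((htj (E2.unpair1 (hidx hy))).mul
        (hkj (E2.unpair1 (hidx hy)))))).add (E2.const 1)
    exact hpow h1 hy (fun v => Nat.div_le_self _ _)
  unfold code
  refine E2.sumRange (n := 1) (b := fun v => kj (Nat.unpair (idx (v 0))).1)
    (f := fun b v => 2 ^ Nat.min b (idx (v 0)) *
    tv (Odd (#{a ∈ range (tj (Nat.unpair (idx (v 0))).1) | F (scal d (idx (v 0)))
      (dig (D (scal d (idx (v 0)))) (v 0 - 2 ^ (idx (v 0)) ^ 2)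
        (b * tj (Nat.unpair (idx (v 0))).1 + a))})))
    (hkj (E2.unpair1 (hidx (E2.proj 0)))) ?_
  have hb : E2 2 (fun w => w 0) := E2.proj 0
  have hy : E2 2 (fun w => w (Fin.succ 0)) := E2.proj _
  refine (hpow (hb.min (hidx hy)) hy ?_).mul ?_
  · intro v
    refine (Nat.min_le_right _ _).trans ?_
    exact Nat.le_self_pow (by norm_num) _
  · refine E2.ite ?_ (E2.const 1) (E2.const 0)
    refine E2Star.odd ?_
    refine E2.countRange (n := 2) (b := fun w => tj (Nat.unpair (idx (w (Fin.succ 0)))).1)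
      (P := fun a w => F (scal d (idx (w (Fin.succ 0))))
        (dig (D (scal d (idx (w (Fin.succ 0))))) (w (Fin.succ 0) - 2 ^ (idx (w (Fin.succ 0))) ^ 2)
        (w 0 * tj (Nat.unpair (idx (w (Fin.succ 0)))).1 + a)))
      (htj (E2.unpair1 (hidx hy))) ?_
    have ha3 : E2 3 (fun u => u 0) := E2.proj 0
    have hb3 : E2 3 (fun u => u (Fin.succ 0)) := E2.proj _
    have hy3 : E2 3 (fun u => u (Fin.succ (Fin.succ 0))) := E2.proj _
    have hs3 := hscal hy3
    have hD3 : E2 3 (fun u => D (scal d (idx (u (Fin.succ (Fin.succ 0)))))) :=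
      E2.comp1 (g := D) h.dom hs3
    have hp3 : E2 3 (fun u => 2 ^ (idx (u (Fin.succ (Fin.succ 0)))) ^ 2) :=
      hpow (powConst (hidx hy3) 2) hy3 (fun v => le_rfl)
    have hd3 := E2.dig hD3 (hy3.sub hp3) ((hb3.mul (htj (E2.unpair1 (hidx hy3)))).add ha3)
    have := h.star.subst (n := 3)
      (h := ![fun u => scal d (idx (u (Fin.succ (Fin.succ 0)))), fun u =>
        dig (D (scal d (idx (u (Fin.succ (Fin.succ 0))))))
          (u (Fin.succ (Fin.succ 0)) - 2 ^ (idx (u (Fin.succ (Fin.succ 0)))) ^ 2)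
          (u (Fin.succ 0) * tj (Nat.unpair (idx (u (Fin.succ (Fin.succ 0))))).1 + u 0)]) (by
        intro i
        fin_cases i
        · exact hs3
        · exact hd3)
    simpa using this

/-! ### the code on a window -/

theorem idx_eq {i y : ℕ} (h1 : 2 ^ i ^ 2 ≤ y) (h2 : y < 2 ^ (i + 1) ^ 2) : idx y = i := by
  have hy : y ≠ 0 := by
    have : 0 < 2 ^ i ^ 2 := by positivity
    omega
  have h3 : i ^ 2 ≤ Nat.log 2 y := (Nat.le_log_iff_pow_le (by norm_num) hy).2 h1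
  have h4 : Nat.log 2 y < (i + 1) ^ 2 := (Nat.log_lt_iff_lt_pow (by norm_num) hy).2 h2
  unfold idx
  have h5 := Nat.le_sqrt'.2 h3
  have h6 := Nat.sqrt_lt'.2 h4
  omega

theorem dig_dig {D t X b a : ℕ} (ha : a < t) :
    dig D (X / (D ^ t) ^ b % D ^ t) a = dig D X (b * t + a) := by
  unfold dig
  obtain ⟨c, rfl⟩ := Nat.exists_eq_add_of_lt ha
  have e1 : D ^ (a + c + 1) = D ^ a * D ^ (c + 1) := by rw [← pow_add]; congr 1
  rw [← pow_mul]
  conv_lhs => rw [show X / D ^ ((a + c + 1) * b) % D ^ (a + c + 1) =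
    X / D ^ ((a + c + 1) * b) % (D ^ a * D ^ (c + 1)) by rw [e1]]
  rw [Nat.mod_mul_right_div_self, Nat.mod_mod_of_dvd _ (dvd_pow_self D (Nat.succ_ne_zero c)),
    Nat.div_div_eq_div_mul, ← pow_add, mul_comm (a + c + 1) b]

theorem par_iff {F : ℕ → Prop} {D t X b : ℕ} :
    par F (D) t (X / (D ^ t) ^ b % D ^ t) ↔
      Odd (#{a ∈ range t | F (dig D X (b * t + a))}) := by
  unfold par
  have h2 : #{i : Fin t | F (dig D (X / (D ^ t) ^ b % D ^ t) i)} =
      #{a ∈ range t | F (dig D X (b * t + a))} := by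
    refine Finset.card_bij (fun i _ => (i : ℕ)) ?_ ?_ ?_
    · intro i hi
      rw [mem_filter] at hi ⊢
      refine ⟨mem_range.2 i.isLt, ?_⟩
      rw [← dig_dig i.isLt]
      exact hi.2
    · intro i _ i' _ h
      exact Fin.ext h
    · intro a ha
      rw [mem_filter, mem_range] at ha
      refine ⟨⟨a, ha.1⟩, ?_, rfl⟩
      rw [mem_filter]
      refine ⟨mem_univ _, ?_⟩
      show F (dig D (X / (D ^ t) ^ b % D ^ t) a)
      rw [dig_dig ha.1]
      exact ha.2
  rw [h2]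

theorem code_eq {F : ℕ → ℕ → Prop} {D : ℕ → ℕ} {d i y : ℕ} (h1 : 2 ^ i ^ 2 ≤ y)
    (h2 : y < 2 ^ (i + 1) ^ 2) :
    code F D d y = enc (par (F (scal d i)) (D (scal d i)) (tj (Nat.unpair i).1))
      (D (scal d i) ^ tj (Nat.unpair i).1) (kj (Nat.unpair i).1) (y - 2 ^ i ^ 2) := by
  rw [enc_sum]
  unfold code
  rw [idx_eq h1 h2]
  refine Finset.sum_congr rfl fun b hb => ?_
  have hbi : Nat.min b i = b := by
    have h3 := mem_range.1 hb
    have h4 : (Nat.unpair (Nat.unpair i).1).2 ≤ (Nat.unpair i).1 := Nat.unpair_right_le _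
    have h5 : (Nat.unpair i).1 ≤ i := Nat.unpair_left_le _
    unfold kj at h3
    exact Nat.min_eq_left (by omega)
  rw [hbi]
  congr 1
  exact tv_congr par_iff.symm

/-- on blocks -/
theorem code_block' {F : ℕ → ℕ → Prop} {D : ℕ → ℕ} {d i r p : ℕ} (j : ℕ)
    (hj : (Nat.unpair i).1 = j) (hp : p < (D (scal d i) ^ tj j) ^ kj j)
    (hi : 2 ^ i ^ 2 + (r + 1) * (D (scal d i) ^ tj j) ^ kj j ≤ 2 ^ (i + 1) ^ 2) :
    code F D d (2 ^ i ^ 2 + r * (D (scal d i) ^ tj j) ^ kj j + p) =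
      enc (par (F (scal d i)) (D (scal d i)) (tj j)) (D (scal d i) ^ tj j) (kj j) p := by
  subst hj
  have h0 : (r + 1) * (D (scal d i) ^ tj (Nat.unpair i).1) ^ kj (Nat.unpair i).1 =
      r * (D (scal d i) ^ tj (Nat.unpair i).1) ^ kj (Nat.unpair i).1 +
      (D (scal d i) ^ tj (Nat.unpair i).1) ^ kj (Nat.unpair i).1 := by ring
  rw [code_eq (i := i) (by omega) (by omega), ← enc_mod]
  conv_rhs => rw [← Nat.mod_eq_of_lt hp]
  rw [enc_mod, enc_mod, ← enc_mod (kj (Nat.unpair i).1)]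
  conv_rhs => rw [← enc_mod]
  congr 1
  have : 2 ^ i ^ 2 + r * (D (scal d i) ^ tj (Nat.unpair i).1) ^ kj (Nat.unpair i).1 + p - 2 ^ i ^ 2 =
      p + r * (D (scal d i) ^ tj (Nat.unpair i).1) ^ kj (Nat.unpair i).1 := by omega
  rw [this, Nat.add_mul_mod_self_right]

end Pool.Agent.GAvd
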