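import Mathlib
import Pool.Agent.GAvg.AdvQ
import Pool.Agent.GAvd.Count

/-!
# The hybrid argument for non-uniform `Delta0` families
-/

set_option autoImplicit false

namespace Pool.Agent.GAvd

open Finset Filter Pool.Agent.Grz Pool.Agent.GAvg
open scoped Classical

variable {F : ℕ → ℕ → Prop} {D : ℕ → ℕ}

theorem appr_union {S A : ℕ → Prop} {η : ℕ → ℝ} (h1 : Appr (fun n => S n ∧ A n) F D η)
    (h2 : Appr (fun n => S n ∧ ¬ A n) F D η) : Appr S F D η := by
  obtain ⟨P₁, hP₁, he₁⟩ := h1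
  obtain ⟨P₂, hP₂, he₂⟩ := h2
  refine ⟨fun n x => (A n ∧ P₁ n x) ∨ (¬ A n ∧ P₂ n x), ?_, ?_⟩
  · refine NUP.or (NUP.andOn (NUP.param A) ?_) (NUP.andOn (NUP.param (fun n => ¬ A n)) ?_)
    · exact hP₁.mono (Eventually.of_forall fun n v h => ⟨⟨h.1.1, h.2⟩, h.1.2⟩)
    · exact hP₂.mono (Eventually.of_forall fun n v h => ⟨⟨h.1.1, h.2⟩, h.1.2⟩)
  · filter_upwards [he₁, he₂] with n h1 h2 hS
    by_cases hA : A n
    · simp only [hA, not_true_eq_false, false_and, or_false, true_and]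
      exact h1 ⟨hS, hA⟩
    · simp only [hA, not_false_eq_true, false_and, false_or, true_and]
      exact h2 ⟨hS, hA⟩

theorem appr_mono {S S' : ℕ → Prop} {η : ℕ → ℝ} (h : Appr S F D η)
    (hS : ∀ᶠ n in atTop, S' n → S n) : Appr S' F D η := by
  obtain ⟨P, hP, he⟩ := h
  refine ⟨P, hP.mono ?_, ?_⟩
  · filter_upwards [hS] with n h1 v hv
    exact ⟨h1 hv.1, hv.2⟩
  · filter_upwards [hS, he] with n h1 h2 h3
    exact h2 (h1 h3)

/-- one coordinate: the others are parameters -/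
theorem appr_first {k : ℕ} {S : ℕ → Prop} {τ : ℝ} {Q : ℕ → ℕ → ℕ → Prop} (hDp : PolyB D)
    (hD : ∀ n, S n → 0 < D n)
    (hQ : NUP 2 (fun n v => S n ∧ v 0 < D n ^ (k + 1) ∧ v 1 < 2 ^ (k + 1))
      (fun n v => Q n (v 0) (v 1)))
    (hg : ∀ n, S n → τ * 2 ^ (k + 1) * (D n : ℝ) ^ (k + 1) ≤ first (F n) (D n) k (Q n)) :
    Appr S F D (fun _ => 1 / 2 - τ) := by
  have key : ∀ n, ∃ w : ℕ × ℕ × Prop, w.1 ≤ D n ^ k ∧ w.2.1 ≤ 2 ^ k ∧ (S n → w.1 < D n ^ k ∧
      w.2.1 < 2 ^ k ∧ (#{u ∈ range (D n) | ¬ (prd (D n) (Q n) w.1 w.2.1 w.2.2 u ↔ F n u)} : ℝ) ≤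
        (1 / 2 - τ) * D n) := by
    intro n
    by_cases hS : S n
    · obtain ⟨p, b, hp, hb, h1⟩ := first_exists (F n) (D n) k (Q n) τ (hD n hS) (hg n hS)
      obtain ⟨g, h2⟩ := prd_exists (F n) (D n) (Q n) p b τ h1
      exact ⟨(p, b, g), hp.le, hb.le, fun _ => ⟨hp, hb, h2⟩⟩
    · exact ⟨(0, 0, True), Nat.zero_le _, Nat.zero_le _, fun h => absurd h hS⟩
  choose w hw1 hw2 hw3 using key
  refine ⟨fun n u => prd (D n) (Q n) (w n).1 (w n).2.1 (w n).2.2 u, ?_,
    Eventually.of_forall fun n hS => (hw3 n hS).2.2⟩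
  have hu : NUF 1 (fun n v => S n ∧ v 0 < D n) (fun n v => v 0 + D n * (w n).1) :=
    (NUF.proj 0).add ((NUF.param hDp).mul
      (NUF.param ((hDp.pow k).mono (Eventually.of_forall hw1))))
  have hb : ∀ c : ℕ, NUF 1 (fun n v => S n ∧ v 0 < D n) (fun n _ => c + 2 * (w n).2.1) := fun c =>
    (NUF.const c).add ((NUF.const 2).mul
      (NUF.param ((PolyB.const (2 ^ k)).mono (Eventually.of_forall hw2))))
  have hq : ∀ c : ℕ, c < 2 → NUP 1 (fun n v => S n ∧ v 0 < D n)
      (fun n v => Q n (v 0 + D n * (w n).1) (c + 2 * (w n).2.1)) := by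
    intro c hc
    refine NUP.comp2 (G := Q) (K := fun n x y => S n ∧ x < D n ^ (k + 1) ∧ y < 2 ^ (k + 1)) hQ hu
      (hb c) (Eventually.of_forall fun n v hv => ?_)
    obtain ⟨h1, h2, _⟩ := hw3 n hv.1
    refine ⟨hv.1, ?_, ?_⟩
    · calc v 0 + D n * (w n).1 < D n * ((w n).1 + 1) := by
            have := hv.2
            rw [Nat.mul_succ]; omega
        _ ≤ D n * D n ^ k := Nat.mul_le_mul_left _ h1
        _ = D n ^ (k + 1) := by rw [pow_succ']
    · rw [pow_succ']; omega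
  exact ((hq 0 (by norm_num)).and (hq 1 (by norm_num)).not).or
    (((hq 0 (by norm_num)).iff (hq 1 (by norm_num))).and (NUP.param (fun n => (w n).2.2)))

/-- Every `Delta0` family that distinguishes `(p, enc p)` from `(p, b)` gives a predictor. -/
theorem appr_of_gap (hDp : PolyB D) {τ : ℝ} (k : ℕ) :
    ∀ (S : ℕ → Prop) (Q : ℕ → ℕ → ℕ → Prop), (∀ n, S n → 0 < D n) →
      NUP 2 (fun n v => S n ∧ v 0 < D n ^ (k + 1) ∧ v 1 < 2 ^ (k + 1))
        (fun n v => Q n (v 0) (v 1)) →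
      (∀ n, S n → (k + 1) * τ * 2 ^ (k + 1) * (D n : ℝ) ^ (k + 1) ≤ gap (F n) (D n) (k + 1) (Q n)) →
      Appr S F D (fun _ => 1 / 2 - τ) := by
  induction k with
  | zero =>
    intro S Q hD hQ hg
    refine appr_first (k := 0) hDp hD hQ fun n hS => ?_
    have h := hg n hS
    rw [gap_succ _ _ _ (hD n hS)] at h
    simp only [gap_zero, Finset.sum_const_zero, mul_zero, add_zero] at h
    refine le_trans (le_of_eq ?_) h
    push_cast
    ring
  | succ k ih =>
    intro S Q hD hQ hg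
    refine appr_union (A := fun n =>
      τ * 2 ^ (k + 2) * (D n : ℝ) ^ (k + 2) ≤ first (F n) (D n) (k + 1) (Q n)) ?_ ?_
    · exact appr_first (k := k + 1) hDp (fun n h => hD n h.1)
        (hQ.mono (Eventually.of_forall fun n v h => ⟨h.1.1, h.2⟩)) fun n hS => hS.2
    · have key : ∀ n, ∃ u, u ≤ D n ∧ ((S n ∧ ¬ (τ * 2 ^ (k + 2) * (D n : ℝ) ^ (k + 2) ≤
          first (F n) (D n) (k + 1) (Q n))) → u < D n ∧
            (k + 1) * τ * 2 ^ (k + 1) * (D n : ℝ) ^ (k + 1) ≤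
            gap (F n) (D n) (k + 1) (fixc (D n) (Q n) u (tv (F n u)))) := by
        intro n
        by_contra hcon
        push Not at hcon
        obtain ⟨⟨hS, h1⟩, _⟩ := hcon 0 (Nat.zero_le _)
        have h2 := hg n hS
        rw [gap_succ _ _ _ (hD n hS)] at h2
        have h3 : ∑ u ∈ range (D n), gap (F n) (D n) (k + 1) (fixc (D n) (Q n) u (tv (F n u))) <
            ∑ u ∈ range (D n), ((k + 1) * τ * 2 ^ (k + 1) * (D n : ℝ) ^ (k + 1)) := by
          apply Finset.sum_lt_sum_of_nonempty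
          · rw [nonempty_range_iff]; exact (hD n hS).ne'
          · intro u hu
            exact (hcon u (mem_range.1 hu).le).2 (mem_range.1 hu)
        rw [sum_const, card_range, nsmul_eq_mul] at h3
        have h4 : (D n : ℝ) * ((k + 1) * τ * 2 ^ (k + 1) * (D n : ℝ) ^ (k + 1)) * 2 +
            τ * 2 ^ (k + 2) * (D n : ℝ) ^ (k + 2) =
            ((k + 1 : ℕ) + 1) * τ * 2 ^ (k + 2) * (D n : ℝ) ^ (k + 2) := by
          push_cast
          ring
        have h5 : ¬ (τ * 2 ^ (k + 2) * (D n : ℝ) ^ (k + 2) ≤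
          first (F n) (D n) (k + 1) (Q n)) := fun h => absurd h (not_le.2 h1)
        have h6 := not_le.1 h5
        have h7 : ((k + 1 : ℕ) + 1 : ℝ) * τ * 2 ^ (k + 2) * (D n : ℝ) ^ (k + 2) ≤ _ := h2
        linarith
      choose u hu hgap using key
      refine ih _ (fun n => fixc (D n) (Q n) (u n) (tv (F n (u n)))) (fun n h => hD n h.1) ?_
        (fun n hS => (hgap n hS).2)
      have hup : PolyB u := hDp.mono (Eventually.of_forall hu)
      have htp : PolyB (fun n => tv (F n (u n))) :=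
        (PolyB.const 2).mono (Eventually.of_forall fun n => (tv_lt _).le)
      refine NUP.comp2 (G := Q) (K := fun n x y => S n ∧ x < D n ^ (k + 2) ∧ y < 2 ^ (k + 2)) hQ
        ((NUF.param hup).add ((NUF.param hDp).mul (NUF.proj 0)))
        ((NUF.param htp).add ((NUF.const 2).mul (NUF.proj 1)))
        (Eventually.of_forall fun n v hv => ?_)
      obtain ⟨hS, hv0, hv1⟩ := hv
      refine ⟨hS.1, ?_, ?_⟩
      · calc u n + D n * v 0 < D n * (v 0 + 1) := by
              have := (hgap n hS).1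
              rw [Nat.mul_succ]; omega
          _ ≤ D n * D n ^ (k + 1) := Nat.mul_le_mul_left _ hv0
          _ = D n ^ (k + 2) := by rw [pow_succ' _ (k + 1)]
      · have := tv_lt (F n (u n))
        rw [pow_succ' _ (k + 1)]; omega

end Pool.Agent.GAvd
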