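import Mathlib
import Pool.Agent.GAvg.Final
import Pool.Agent.GAvd.Code
import Pool.Agent.GAvd.Hybrid

/-!
# Avoidance and inner density: from weak forms of `Delta0 = E2Star` to approximations
-/

set_option autoImplicit false

namespace Pool.Agent.GAvd

open Finset Filter Pool.Agent.Grz Pool.Agent.GAvg
open scoped Classical

theorem exists_exp {γ : ℝ} (hγ : 0 < γ) : ∃ e : ℕ, 0 < e ∧ (1 : ℝ) ≤ γ * 2 ^ e := by
  obtain ⟨e₀, he₀⟩ := exists_pow_lt_of_lt_one hγ (show (1 / 2 : ℝ) < 1 by norm_num)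
  refine ⟨e₀ + 1, Nat.succ_pos _, ?_⟩
  have h1 : (1 / 2 : ℝ) ^ (e₀ + 1) ≤ γ := by
    rw [pow_succ]
    have : (0 : ℝ) < (1 / 2 : ℝ) ^ e₀ := by positivity
    linarith
  have h2 : (1 / 2 : ℝ) ^ (e₀ + 1) * 2 ^ (e₀ + 1) = 1 := by
    rw [← mul_pow]; norm_num
  calc (1 : ℝ) = (1 / 2 : ℝ) ^ (e₀ + 1) * 2 ^ (e₀ + 1) := h2.symm
    _ ≤ γ * 2 ^ (e₀ + 1) := by gcongr

/-- sizes of the windows -/
structure Sizes (D : ℕ → ℕ) (e E k : ℕ) (γ : ℝ) : Prop where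
  pos : 0 < E
  tend : Tendsto (fun n : ℕ => (2 ^ e * n) ^ E) atTop atTop
  poly : ∀ n : ℕ, (2 ^ e * n) ^ E + 2 ≤ (n + 2) ^ ((e + 1) * E + 1)
  ev : ∀ᶠ n : ℕ in atTop, n ^ E ≤ (2 ^ e * n) ^ E ∧ 0 < (2 ^ e * n) ^ E ∧
    ((n ^ E : ℕ) : ℝ) ≤ γ / 8 * (((2 ^ e * n) ^ E : ℕ) : ℝ) ∧
    ((D n ^ k : ℕ) : ℝ) ≤ γ / 8 * (((2 ^ e * n) ^ E : ℕ) : ℝ)

theorem exists_sizes {γ : ℝ} (hγ : 0 < γ) (k : ℕ) : ∃ e : ℕ, 0 < e ∧ ∀ (F : ℕ → ℕ → Prop)
    (D : ℕ → ℕ), Fam F D → ∃ E : ℕ, Sizes D e E k γ := by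
  obtain ⟨e, hepos, heγ⟩ := exists_exp (show 0 < γ / 8 by positivity)
  refine ⟨e, hepos, fun F D hFD => ?_⟩
  obtain ⟨d', hd'⟩ := hFD.poly
  set d := d' * k with hd0
  have hd : ∀ n, D n ^ k ≤ (n + 2) ^ d := by
    intro n
    rw [hd0, pow_mul]
    exact Nat.pow_le_pow_left (hd' n) k
  refine ⟨d + 2, by omega, ?_, ?_, ?_⟩
  · refine tendsto_atTop_mono (fun n => ?_) tendsto_id
    calc id n = n := rfl
      _ ≤ 2 ^ e * n := Nat.le_mul_of_pos_left n (by positivity)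
      _ ≤ (2 ^ e * n) ^ (d + 2) := Nat.le_self_pow (by omega) _
  · intro n
    set E := d + 2 with hE
    have hEpos : 0 < E := by omega
    have h1 : 2 ^ e * n ≤ (n + 2) ^ (e + 1) := by
      rw [pow_succ (n + 2) e]
      exact Nat.mul_le_mul (Nat.pow_le_pow_left (by omega) e) (by omega)
    have h2 : (2 ^ e * n) ^ E ≤ (n + 2) ^ ((e + 1) * E) := by
      rw [pow_mul]
      exact Nat.pow_le_pow_left h1 E
    have h3 : 2 ≤ (n + 2) ^ ((e + 1) * E) := by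
      have : (n + 2) ^ 1 ≤ (n + 2) ^ ((e + 1) * E) :=
        Nat.pow_le_pow_right (by omega) (Nat.mul_pos (by omega) hEpos)
      rw [pow_one] at this
      omega
    calc (2 ^ e * n) ^ E + 2 ≤ (n + 2) ^ ((e + 1) * E) + (n + 2) ^ ((e + 1) * E) := by omega
      _ = (n + 2) ^ ((e + 1) * E) * 2 := by ring
      _ ≤ (n + 2) ^ ((e + 1) * E) * (n + 2) := Nat.mul_le_mul_left _ (by omega)
      _ = (n + 2) ^ ((e + 1) * E + 1) := by rw [pow_succ]
  · obtain ⟨m, hm⟩ := exists_nat_ge (8 * 2 ^ d / γ)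
    filter_upwards [eventually_ge_atTop 2, eventually_ge_atTop m] with n hn2 hnm
    set E := d + 2 with hE
    have hEpos : 0 < E := by omega
    have hTN : n ^ E ≤ (2 ^ e * n) ^ E :=
      Nat.pow_le_pow_left (Nat.le_mul_of_pos_left n (by positivity)) E
    refine ⟨hTN, by positivity, ?_, ?_⟩
    · push_cast
      rw [mul_pow]
      have h1 : (2 : ℝ) ^ e ≤ (2 ^ e) ^ E := by
        exact le_self_pow₀ (one_le_pow₀ (by norm_num)) hEpos.ne'
      have h2 : (0 : ℝ) ≤ (n : ℝ) ^ E := by positivity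
      have h3 : (1 : ℝ) ≤ γ / 8 * (2 ^ e) ^ E := heγ.trans (by gcongr)
      calc (n : ℝ) ^ E = 1 * (n : ℝ) ^ E := (one_mul _).symm
        _ ≤ (γ / 8 * (2 ^ e) ^ E) * (n : ℝ) ^ E := by gcongr
        _ = γ / 8 * ((2 ^ e) ^ E * (n : ℝ) ^ E) := by ring
    · have h1 : ((D n ^ k : ℕ) : ℝ) ≤ ((n : ℝ) + 2) ^ d := by exact_mod_cast hd n
      have hn2' : (2 : ℝ) ≤ n := by exact_mod_cast hn2
      have h2 : ((n : ℝ) + 2) ^ d ≤ (2 * n) ^ d := by
        apply pow_le_pow_left₀ (by positivity)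
        linarith
      have h3 : (8 * 2 ^ d / γ : ℝ) ≤ n := hm.trans (by exact_mod_cast hnm)
      have h4 : (2 : ℝ) ^ d ≤ γ / 8 * n := by
        rw [div_le_iff₀ hγ] at h3
        linarith
      have h5 : ((n ^ E : ℕ) : ℝ) ≤ (((2 ^ e * n) ^ E : ℕ) : ℝ) := by exact_mod_cast hTN
      calc ((D n ^ k : ℕ) : ℝ) ≤ (2 * n) ^ d := h1.trans h2
        _ = 2 ^ d * (n : ℝ) ^ d := by rw [mul_pow]
        _ ≤ (γ / 8 * n) * (n : ℝ) ^ d := by gcongr
        _ ≤ (γ / 8 * n) * (n : ℝ) ^ d * n := by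
          apply le_mul_of_one_le_right (by positivity)
          linarith
        _ = γ / 8 * ((n ^ E : ℕ) : ℝ) := by
          push_cast
          rw [hE]
          ring
        _ ≤ γ / 8 * (((2 ^ e * n) ^ E : ℕ) : ℝ) := by gcongr

theorem count_mod {M m r : ℕ} (hm : 0 < m) (hr : r < m) :
    (M : ℝ) / m - 1 ≤ ∑ b ∈ range M, (if b % m = r then (1 : ℝ) else 0) := by
  have h1 : ∑ b ∈ range M, (if b % m = r then (1 : ℝ) else 0) =
      (Nat.count (fun b => b ≡ r [MOD m]) M : ℝ) := by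
    rw [Nat.count_eq_card_filter_range, Finset.card_filter]
    push_cast
    refine Finset.sum_congr rfl fun b _ => ?_
    simp only [Nat.ModEq, Nat.mod_eq_of_lt hr]
  rw [h1, Nat.count_modEq_card M hm r]
  have h2 : (M : ℝ) < (m : ℝ) * (M / m : ℕ) + m := by
    have := Nat.lt_mul_div_succ M hm
    rw [Nat.mul_succ] at this
    exact_mod_cast this
  have hm' : (0 : ℝ) < m := by exact_mod_cast hm
  have h3 : (M : ℝ) / m ≤ (M / m : ℕ) + 1 := by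
    rw [div_le_iff₀ hm']
    nlinarith
  push_cast
  have h4 : (0 : ℝ) ≤ (if r % m < M % m then (1 : ℝ) else 0) := by split_ifs <;> norm_num
  linarith

end Pool.Agent.GAvd
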