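import Mathlib
import Pool.Agent.GAvd.Final

/-!
# Avoidance gives approximation
-/

set_option autoImplicit false

namespace Pool.Agent.GAvd

open Finset Filter Pool.Agent.Grz Pool.Agent.GAvg
open scoped Classical

theorem gap_of_avoid {F : ℕ → Prop} {D k m : ℕ} {γ : ℝ} {h : ℕ → ℕ} {s : ℕ} (hm : 0 < m)
    (hh : ∀ x, h x < m) (hγk : 8 ≤ γ * 2 ^ k)
    (hcnt : ((1 - 1 / (m : ℝ)) + γ / 2) * ((D ^ k : ℕ) : ℝ) ≤
      (Nat.count (fun p => h (s + p) ≠ enc F D k p % m) (D ^ k) : ℝ)) :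
    γ / 4 * 2 ^ k * (D : ℝ) ^ k ≤ gap F D k (fun p b => b % m = h (s + p)) := by
  unfold gap nn tt'
  have h1 : (D : ℝ) ^ k * ((2 : ℝ) ^ k / m - 1) ≤
      ∑ p ∈ range (D ^ k), ∑ b ∈ range (2 ^ k), (if b % m = h (s + p) then (1 : ℝ) else 0) := by
    have : ∑ p ∈ range (D ^ k), ((2 : ℝ) ^ k / m - 1) ≤
        ∑ p ∈ range (D ^ k), ∑ b ∈ range (2 ^ k), (if b % m = h (s + p) then (1 : ℝ) else 0) := by
      refine Finset.sum_le_sum fun p _ => ?_
      have := count_mod (M := 2 ^ k) hm (hh (s + p))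
      push_cast at this
      exact this
    rw [sum_const, card_range, nsmul_eq_mul] at this
    push_cast at this
    exact this
  have h2 : (∑ p ∈ range (D ^ k), (if enc F D k p % m = h (s + p) then (1 : ℝ) else 0)) +
      (Nat.count (fun p => h (s + p) ≠ enc F D k p % m) (D ^ k) : ℝ) = (D : ℝ) ^ k := by
    rw [Nat.count_eq_card_filter_range, Finset.card_filter]
    push_cast
    rw [← Finset.sum_add_distrib]
    have : ∀ p ∈ range (D ^ k), ((if enc F D k p % m = h (s + p) then (1 : ℝ) else 0) +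
        (if h (s + p) ≠ enc F D k p % m then (1 : ℝ) else 0)) = 1 := by
      intro p _
      by_cases hp : enc F D k p % m = h (s + p)
      · simp [hp]
      · simp [hp, Ne.symm hp]
    rw [Finset.sum_congr rfl this]
    simp
  push_cast at h2 hcnt ⊢
  set A := ∑ p ∈ range (D ^ k), ∑ b ∈ range (2 ^ k), (if b % m = h (s + p) then (1 : ℝ) else 0)
  set B := ∑ p ∈ range (D ^ k), (if enc F D k p % m = h (s + p) then (1 : ℝ) else 0)
  have hD0 : (0 : ℝ) ≤ (D : ℝ) ^ k := by positivity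
  have h3 : B ≤ (1 / m - γ / 2) * (D : ℝ) ^ k := by nlinarith
  have h4 : (2 : ℝ) ^ k * B ≤ 2 ^ k * ((1 / m - γ / 2) * (D : ℝ) ^ k) :=
    mul_le_mul_of_nonneg_left h3 (by positivity)
  have h5 : (D : ℝ) ^ k * 8 ≤ (D : ℝ) ^ k * (γ * 2 ^ k) := mul_le_mul_of_nonneg_left hγk hD0
  have h6 : (D : ℝ) ^ k * ((2 : ℝ) ^ k / m - 1) - 2 ^ k * ((1 / m - γ / 2) * (D : ℝ) ^ k) =
      (D : ℝ) ^ k * (γ * 2 ^ k) / 2 - (D : ℝ) ^ k := by ring
  nlinarith

theorem appr_avoid {m : ℕ} (hm : 2 ≤ m) {γ : ℝ} (hγ : 0 < γ)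
    (H : ∀ f : ℕ → ℕ, E2 1 (fun v => f (v 0)) → (∀ x, f x < m) →
      ∃ (c : ℕ) (h : ℕ → ℕ → ℕ), DFun 2 (fun v => h (v 0) (v 1)) ∧ (∀ a x, h a x < m) ∧
        ∀ᶠ N : ℕ in atTop, ∃ a : ℕ, a ≤ (N + 2) ^ c ∧
          (1 - 1 / (m : ℝ) + γ) * (N : ℝ) ≤ (#{x ∈ range N | h a x ≠ f x} : ℝ)) :
    ∃ τ : ℝ, 0 < τ ∧ ∃ e : ℕ, 0 < e ∧ ∀ (F : ℕ → ℕ → Prop) (D : ℕ → ℕ), Fam F D →
      Appr (fun n => ∃ j, n = 2 ^ (e * j)) F D (fun _ => 1 / 2 - τ) := by
  obtain ⟨k', hk', hk8⟩ := exists_exp (show 0 < γ / 8 by positivity)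
  obtain ⟨k, rfl⟩ := Nat.exists_eq_add_of_le' hk'
  have hk8' : 8 ≤ γ * 2 ^ (k + 1) := by linarith
  refine ⟨γ / (4 * (k + 1)), by positivity, ?_⟩
  obtain ⟨e, hepos, he⟩ := exists_sizes hγ (k + 1)
  refine ⟨e, hepos, fun F D hFD => ?_⟩
  obtain ⟨E, hE⟩ := he F D hFD
  obtain ⟨G, hG2, hGlt, hG⟩ := exists_code hFD e E (k + 1) hE.pos
  obtain ⟨c, h, hh, hhm, hev⟩ := H (fun y => G y % m) (hG2.mod (E2.const m))
    (fun x => Nat.mod_lt _ (by omega))
  set good : ℕ → ℕ × ℕ → Prop := fun n w => w.1 ≤ ((n + 2) ^ ((e + 1) * E + 1)) ^ c ∧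
    w.2 ≤ (n + 2) ^ ((e + 1) * E + 1) ∧ 0 < D n ∧
    γ / 4 * 2 ^ (k + 1) * (D n : ℝ) ^ (k + 1) ≤
      gap (F n) (D n) (k + 1) (fun p b => b % m = h w.1 (w.2 + p)) with hgood
  have key : ∀ᶠ n in atTop, (∃ j, n = 2 ^ (e * j)) → ∃ w, good n w := by
    filter_upwards [hE.tend.eventually hev, hE.ev, eventually_ge_atTop 1] with n hn hsz hn1 hS
    obtain ⟨a, ha, hcnt⟩ := hn
    obtain ⟨hTN, hNpos, hT, hdN⟩ := hsz
    have hDpos : 0 < D n := lt_of_lt_of_le (by omega) (hFD.le n)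
    have hm1 : (0 : ℝ) ≤ 1 - 1 / (m : ℝ) := by
      have : (1 : ℝ) / m ≤ 1 := by
        rw [div_le_one (by positivity)]
        exact_mod_cast (by omega : 1 ≤ m)
      linarith
    rw [← Nat.count_eq_card_filter_range] at hcnt
    obtain ⟨i, hi, hcnt2⟩ := exists_block (fun x => h a x ≠ G x % m) (T := n ^ E)
      (d := D n ^ (k + 1)) (N := (2 ^ e * n) ^ E) (α := 1 - 1 / (m : ℝ)) (γ := γ)
      (by positivity) hTN hNpos hm1 hγ hT hdN
      (hcnt.trans (le_of_eq (congrArg (Nat.cast (R := ℝ)) (count_inst fun x _ => Iff.rfl))))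
    refine ⟨(a, n ^ E + i * D n ^ (k + 1)), ?_, ?_, hDpos, ?_⟩
    · exact ha.trans (Nat.pow_le_pow_left (hE.poly n) c)
    · have h1 : n ^ E + i * D n ^ (k + 1) ≤ (2 ^ e * n) ^ E := by
        have : i * D n ^ (k + 1) ≤ (i + 1) * D n ^ (k + 1) := Nat.mul_le_mul_right _ (by omega)
        omega
      have := hE.poly n
      show n ^ E + i * D n ^ (k + 1) ≤ _
      omega
    · refine gap_of_avoid (by omega) (fun x => hhm a x) hk8' (hcnt2.trans (le_of_eq ?_))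
      refine congrArg (Nat.cast (R := ℝ)) (count_inst fun p hp => ?_)
      have h1 := code_block (F := F) (e := e) (E := E) (i := i) hG hS hp hi
      rw [← h1]
  set w : ℕ → ℕ × ℕ := fun n => Classical.epsilon (good n) with hw
  have hwspec : ∀ᶠ n in atTop, (∃ j, n = 2 ^ (e * j)) → good n (w n) := by
    filter_upwards [key] with n hn hS
    exact Classical.epsilon_spec (hn hS)
  refine appr_mono (S := fun n => good n (w n)) ?_ hwspec
  refine appr_of_gap (τ := γ / (4 * (k + 1))) (Fam.polyB hFD) k (fun n => good n (w n))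
    (fun n p b => b % m = h (w n).1 ((w n).2 + p)) (fun n hn => hn.2.2.1) ?_ ?_
  · have p1 : NUF 2 (fun n v => good n (w n) ∧ v 0 < D n ^ (k + 1) ∧ v 1 < 2 ^ (k + 1))
        (fun n _ => if good n (w n) then (w n).1 else 0) := by
      refine NUF.param ⟨((e + 1) * E + 1) * c, Eventually.of_forall fun n => ?_⟩
      show (if good n (w n) then (w n).1 else 0) ≤ _
      split_ifs with h1
      · rw [pow_mul]; exact h1.1
      · exact Nat.zero_le _
    have p2 : NUF 2 (fun n v => good n (w n) ∧ v 0 < D n ^ (k + 1) ∧ v 1 < 2 ^ (k + 1))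
        (fun n _ => if good n (w n) then (w n).2 else 0) := by
      refine NUF.param ⟨(e + 1) * E + 1, Eventually.of_forall fun n => ?_⟩
      show (if good n (w n) then (w n).2 else 0) ≤ _
      split_ifs with h1
      · exact h1.2.1
      · exact Nat.zero_le _
    refine (NUP.eqFun ((NUF.proj 1).mod (NUF.const m)) (NUF.map2 hh p1 (p2.add (NUF.proj 0)))).congr
      (Eventually.of_forall fun n v hv => ?_)
    simp only [if_pos hv.1]
  · intro n hn
    refine le_trans (le_of_eq ?_) hn.2.2.2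
    have : ((k : ℝ) + 1) ≠ 0 := by positivity
    field_simp

end Pool.Agent.GAvd
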