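import Mathlib
import Pool.Agent.GAvg.Final

/-!
# The chain of families, for an arbitrary set of scales
-/

set_option autoImplicit false

namespace Pool.Agent.GAvd

open Finset Filter Pool.Agent.Grz Pool.Agent.GAvg
open scoped Classical

theorem iterate_reduce' (j : ℕ) :
    ∃ K : ℝ, 0 ≤ K ∧ (j = 0 → K ≤ 1 / 256) ∧ ∀ (F : ℕ → ℕ → Prop) (D : ℕ → ℕ), Fam F D →
      ∃ (F' : ℕ → ℕ → Prop) (D' : ℕ → ℕ), Fam F' D' ∧ ∀ S : ℕ → Prop,
        Appr S F' D' (fun _ => 1 / 1024) → Appr S F D (fun n => K / (tt n : ℝ) ^ j) := by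
  induction j with
  | zero =>
    refine ⟨1 / 1024, by norm_num, fun _ => by norm_num, fun F D hF => ⟨F, D, hF, fun S h => ?_⟩⟩
    simpa using h
  | succ j ih =>
    obtain ⟨K, hK0, hK1, hK⟩ := ih
    refine ⟨2 ^ 20 * K + 2 ^ 10, by positivity, fun h => absurd h (Nat.succ_ne_zero j),
      fun F D hF => ?_⟩
    obtain ⟨F', D', hF', h⟩ := hK _ _ (fam_had hF)
    exact ⟨F', D', hF', fun S hS => appr_reduce hF.le hF.poly j K hK0 hK1 (h S hS)⟩

theorem step0' {S : ℕ → Prop} {R : ℕ → Prop} {K : ℝ}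
    (h : Appr S (fun n w => ((w / qL n ^ mL n : ℕ) : ZMod (qL n)) =
        lde (qL n) (hL n) (mL n) {z ∈ range n | R z} (w % qL n ^ mL n))
      (fun n => qL n ^ (mL n + 1)) (fun n => K / (tt n : ℝ) ^ 30)) :
    NUP 1 (fun n v => S n ∧ v 0 < n) (fun _ v => R (v 0)) := by
  obtain ⟨P, hP, herr⟩ := h
  have ham := amF (C := fun n v => S n ∧ v 0 < n) baseQ (Eventually.of_forall fun n => le_rfl) 12
    qL_polylog mL_polylog (W := fun n ρ v => test0 P n (v 0) ρ) (test0F hP)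
  refine ham.congr ?_
  filter_upwards [herr, error0 (max K 0) (le_max_right _ _)] with n hn hε v hv
  have hn' := hn hv.1
  refine (am_iff (η := max K 0 / (tt n : ℝ) ^ 30) (by positivity) ?_ hε.1 hε.2 hv.2).symm
  have h3 : K / (tt n : ℝ) ^ 30 * ((qL n ^ (mL n + 1) : ℕ) : ℝ) ≤
      max K 0 / (tt n : ℝ) ^ 30 * ((qL n ^ (mL n + 1) : ℕ) : ℝ) := by
    gcongr
    exact le_max_left _ _
  refine le_trans (le_of_eq ?_) (hn'.trans h3)
  congr!

/-- For every unary predicate in `E2Star` there is a family such that small error for the family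
on a set of scales gives the predicate on these scales. -/
theorem chain {R : ℕ → Prop} (hR : E2Star 1 (fun v => R (v 0))) :
    ∃ (F : ℕ → ℕ → Prop) (D : ℕ → ℕ), Fam F D ∧ ∀ S : ℕ → Prop,
      Appr S F D (fun _ => 1 / 1024) → NUP 1 (fun n v => S n ∧ v 0 < n) (fun _ v => R (v 0)) := by
  obtain ⟨K, _, _, hK⟩ := iterate_reduce' 30
  obtain ⟨F, D, hF, h⟩ := hK _ _ (fam_lde hR)
  exact ⟨F, D, hF, fun S hS => step0' (h S hS)⟩

theorem to_nonuniform' {S : ℕ → Prop} {b : ℕ}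
    (hS : ∀ᶠ N : ℕ in atTop, ∃ n, S n ∧ N < n ∧ n ≤ (N + 2) ^ b) {R : ℕ → Prop}
    (h : NUP 1 (fun n v => S n ∧ v 0 < n) (fun _ v => R (v 0))) :
    ∃ (c : ℕ) (ψ : (Fin 2 → ℕ) → Prop), Delta0 2 ψ ∧
      ∀ N, ∃ a, a ≤ (N + 2) ^ c ∧ ∀ x, x ≤ N → (R x ↔ ψ ![a, x]) := by
  obtain ⟨c, ψ, hψ, hn⟩ := h
  obtain ⟨n₁, hn₁⟩ := eventually_atTop.mp hn
  obtain ⟨n₂, hn₂⟩ := eventually_atTop.mp hS
  set n₀ := max n₁ n₂ with hn0
  refine ⟨(b + 2) * c + 1, fun w => (w 0 = 0 ∧ (w 1 < n₀ ∧ R (w 1))) ∨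
    (1 ≤ w 0 ∧ ψ ![w 0 - 1, w 1]), ?_, ?_⟩
  · refine ((Delta0.eqFun (DFun.proj 0) (DFun.const 0)).and
      (Delta0.comp1 (P := fun x => x < n₀ ∧ R x) (finite_delta0 R n₀) (DFun.proj 1))).or
      ((Delta0.leFun (DFun.const 1) (DFun.proj 0)).and ?_)
    refine Delta0.comp2 (P := fun a x => ψ ![a, x]) ?_ ((DFun.proj 0).sub (DFun.const 1))
      (DFun.proj 1)
    refine hψ.of_iff ?_
    intro v
    have : ![v 0, v 1] = v := by
      funext i; fin_cases i <;> rfl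
    rw [this]
  · intro N
    rcases Nat.lt_or_ge N n₀ with hN | hN
    · refine ⟨0, Nat.zero_le _, fun x hx => ?_⟩
      have hx' : x < n₀ := by omega
      simp [hx']
    · obtain ⟨n, hSn, hNn, hnN⟩ := hn₂ N (le_trans (le_max_right _ _) hN)
      have hn1 : n₁ ≤ n := le_trans (le_trans (le_max_left _ _) hN) hNn.le
      obtain ⟨a, ha, hall⟩ := hn₁ n hn1
      refine ⟨a + 1, ?_, ?_⟩
      · have h1 : n + 2 ≤ (N + 2) ^ (b + 2) := by
          have h3 : 1 ≤ (N + 2) ^ b := Nat.one_le_pow _ _ (by omega)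
          calc n + 2 ≤ (N + 2) ^ b * 1 + (N + 2) ^ b * 2 := by omega
            _ = (N + 2) ^ b * 3 := by ring
            _ ≤ (N + 2) ^ b * ((N + 2) * (N + 2)) := by
                apply Nat.mul_le_mul_left
                nlinarith
            _ = (N + 2) ^ (b + 2) := by ring
        have h4 : a ≤ (N + 2) ^ ((b + 2) * c) := by
          refine ha.trans ?_
          rw [pow_mul (N + 2)]
          exact Nat.pow_le_pow_left h1 c
        have h5 : 1 ≤ (N + 2) ^ ((b + 2) * c) := Nat.one_le_pow _ _ (by omega)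
        calc a + 1 ≤ (N + 2) ^ ((b + 2) * c) + (N + 2) ^ ((b + 2) * c) := by omega
          _ = (N + 2) ^ ((b + 2) * c) * 2 := by ring
          _ ≤ (N + 2) ^ ((b + 2) * c) * (N + 2) := Nat.mul_le_mul_left _ (by omega)
          _ = (N + 2) ^ ((b + 2) * c + 1) := by ring
      · intro x hx
        have := hall ![x] ⟨hSn, by simpa using (by omega : x < n)⟩
        simp only [Matrix.cons_val_fin_one] at this
        simp [this]

end Pool.Agent.GAvd
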