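import Pool.Agent.GAvg.Step2

/-!
# From correlation to a constant error, uniformly in the set of scales
-/

set_option autoImplicit false

namespace Pool.Agent.GAvd

open Finset Filter Pool.Agent.Grz Pool.Agent.GAvg
open scoped Classical

/-- `appr_isolate` with a number of copies that does not depend on the set of scales -/
theorem appr_isolate' {γ : ℝ} (hγ : 0 < γ) : ∃ t : ℕ, 0 < t ∧
    ∀ (S : ℕ → Prop) (F : ℕ → ℕ → Prop) (D : ℕ → ℕ), (∀ n, n ≤ D n) → (∃ d : ℕ, ∀ n, D n ≤ (n + 2) ^ d) →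
      Appr S (fun n w => Odd (#{i : Fin t | F n (dig (D n) w i)})) (fun n => D n ^ t)
        (fun _ => 1 / 2 - γ) →
      Appr S F D (fun _ => 1 / 1024) := by
  obtain ⟨t, u, ht, hiso⟩ := isolation γ (1 / 1024) hγ (by norm_num)
  refine ⟨t, ht, ?_⟩
  rintro S F D hD ⟨d, hDd⟩ ⟨A, hA, hAerr⟩
  have hDp : PolyB D := ⟨d, Eventually.of_forall hDd⟩
  -- the predicates on vectors
  obtain ⟨P, hP⟩ : ∃ P : ℕ → (Fin t → ℕ) → Prop, P = fun n v => A n (∑ i : Fin t, v i * D n ^ (i : ℕ)) :=
    ⟨_, rfl⟩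
  have hPn : NUP t (fun n v => S n ∧ ∀ i, v i < D n) P := by
    have h1 : NUF t (fun n v => S n ∧ ∀ i, v i < D n)
        (fun n v => ∑ i : Fin t, v i * D n ^ (i : ℕ)) :=
      NUF.finSum fun i => NUF.mul (NUF.proj i) (NUF.param (hDp.pow i))
    have h2 := NUP.comp1 (G := A) (K := fun n x => S n ∧ x < D n ^ t) hA h1
      (Eventually.of_forall fun n v hv => ⟨hv.1, by
        have h3 := (finFunctionFinEquiv (fun i => (⟨v i, hv.2 i⟩ : Fin (D n)))).isLt
        rw [finFunctionFinEquiv_apply] at h3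
        exact h3⟩)
    rw [hP]
    exact h2
  -- the isolation lemma
  obtain ⟨G, hG⟩ : ∃ G : ℕ → ℕ → Prop, G = fun j n => ∃ Q : (Fin (j + 1) → ℕ) → Prop,
      Der (D n) u (P n) (j + 1) Q ∧ ∃ y₀ : Fin j → ℕ, (∀ i, y₀ i < D n) ∧ ∃ b : Prop,
          (1 - 1 / 1024) * (D n : ℝ) ≤
            (#{x ∈ range (D n) | (Q (Fin.cons x y₀) ↔ b) ↔ F n x} : ℝ) := ⟨_, rfl⟩
  have hgood : ∀ᶠ n in atTop, S n → ∃ j, G j n := by
    filter_upwards [hAerr, eventually_gt_atTop 0] with n h1 hn hS
    have h2 := h1 hS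
    have hD0 : 0 < D n := lt_of_lt_of_le hn (hD n)
    obtain ⟨j, Q, h3, y₀, h4, b, h5⟩ := hiso (D n) (F n) (P n) hD0 (by
      rw [hP]
      dsimp only
      rw [step2_count]
      rw [iso_card] at h2 ⊢
      exact step2_flip _ _ (by push_cast; rfl) h2)
    rw [hG]
    exact ⟨j, Q, h3, y₀, h4, b, h5⟩
  have hGlt : ∀ j n, G j n → j < t := by
    intro j n h
    rw [hG] at h
    obtain ⟨Q, h1, _⟩ := h
    have := step2_der_le h1
    omega
  -- choice
  have hch : ∀ j n, ∃ (Q : (Fin (j + 1) → ℕ) → Prop) (y₀ : Fin j → ℕ) (b : Prop), G j n →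
      (Der (D n) u (P n) (j + 1) Q ∧ (∀ i, y₀ i < D n) ∧
          (1 - 1 / 1024) * (D n : ℝ) ≤
            (#{x ∈ range (D n) | (Q (Fin.cons x y₀) ↔ b) ↔ F n x} : ℝ)) := by
    intro j n
    by_cases h : G j n
    · have h' := h
      rw [hG] at h'
      obtain ⟨Q, h1, y₀, h2, b, h3⟩ := h'
      exact ⟨Q, y₀, b, fun _ => ⟨h1, h2, h3⟩⟩
    · exact ⟨fun _ => True, fun _ => 0, True, fun h' => absurd h' h⟩
  choose Q y₀ b hQ using hch
  have hJ : ∀ n, ∃ j < t, (∃ j', G j' n) → G j n := by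
    intro n
    by_cases h : ∃ j', G j' n
    · obtain ⟨j, hj⟩ := h
      exact ⟨j, hGlt j n hj, fun _ => hj⟩
    · exact ⟨0, ht, fun h' => absurd h' h⟩
  choose J hJt hJG using hJ
  refine ⟨fun n x => (Q (J n) n (Fin.cons x (y₀ (J n) n)) ↔ b (J n) n), ?_, ?_⟩
  · refine NUP.cases J t hJt fun j hj => ?_
    -- fixed `j`
    have hSj := step2_main (u := u) hDp hPn (t - (j + 1)) (j + 1) (by omega)
      (fun n => S n ∧ G j n) (Q j) (fun n hn => hn.1) (fun n hn => (hQ j n hn.2).1)
    have hy : ∀ l, PolyB (fun n => if G j n then y₀ j n l else 0) := by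
      intro l
      refine hDp.mono (Eventually.of_forall fun n => ?_)
      split_ifs with hn
      · exact ((hQ j n hn).2.1 l).le
      · exact Nat.zero_le _
    have h2 := NUP.subst hSj (C := fun n v => (S n ∧ v 0 < D n) ∧ J n = j)
        (h := (Fin.cons (fun n (v : Fin 1 → ℕ) => v 0)
          (fun l n _ => if G j n then y₀ j n l else 0) : Fin (j + 1) → ℕ → (Fin 1 → ℕ) → ℕ))
        (fun l => by
          refine Fin.cases ?_ (fun l => ?_) l
          · exact NUF.proj 0
          · exact NUF.param (hy l))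
        (by
          filter_upwards [hgood] with n hn v hv
          have hGj : G j n := by
            have := hJG n (hn hv.1.1)
            rwa [hv.2] at this
          refine ⟨⟨hv.1.1, hGj⟩, fun l => ?_⟩
          refine Fin.cases ?_ (fun l => ?_) l
          · simp only [Fin.cons_zero]
            exact hv.1.2
          · simp only [Fin.cons_succ, if_pos hGj]
            exact (hQ j n hGj).2.1 l)
    refine (NUP.iff h2 (NUP.param (fun n => b j n))).congr ?_
    filter_upwards [hgood] with n hn v hv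
    have hGj : G j n := by
      have := hJG n (hn hv.1.1)
      rwa [hv.2] at this
    have e : (fun l : Fin (j + 1) => (Fin.cons (fun n (v : Fin 1 → ℕ) => v 0)
          (fun l n _ => if G j n then y₀ j n l else 0) : Fin (j + 1) → ℕ → (Fin 1 → ℕ) → ℕ) l n v)
          = Fin.cons (v 0) (y₀ j n) := by
      funext l
      refine Fin.cases ?_ (fun l => ?_) l
      · simp only [Fin.cons_zero]
      · simp only [Fin.cons_succ, if_pos hGj]
    rw [e]
    obtain ⟨_, hv2⟩ := hv
    subst hv2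
    exact Iff.rfl
  · filter_upwards [hgood] with n hn hS
    have h1 := hQ (J n) n (hJG n (hn hS))
    have h8 := h1.2.2
    rw [iso_card] at h8 ⊢
    exact step2_flip' _ h8

end Pool.Agent.GAvd
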