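import Mathlib
import Pool.Agent.GAvd.Alloc
import Pool.Agent.GAvd.Hybrid
import Pool.Agent.GAvd.Iso2

/-!
# From gaps on the windows of one index to a small error
-/

set_option autoImplicit false

namespace Pool.Agent.GAvd

open Finset Filter Pool.Agent.Grz Pool.Agent.GAvg
open scoped Classical

/-- the scales of the index `j` -/
def SS (d j n : ℕ) : Prop := ∃ i, (Nat.unpair i).1 = j ∧ n = scal d i

theorem wj_pos (d j : ℕ) : 0 < wj d j := Nat.succ_pos _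

theorem scal_eq {d i j : ℕ} (h : (Nat.unpair i).1 = j) : scal d i = 2 ^ (i ^ 2 / wj d j) := by
  subst h; rfl

theorem scal_pos (d i : ℕ) : 0 < scal d i := by unfold scal; positivity

theorem scal_le (d i : ℕ) : scal d i ≤ 2 ^ i ^ 2 :=
  Nat.pow_le_pow_right (by norm_num) (Nat.div_le_self _ _)

theorem ev_idx (d M : ℕ) : ∀ᶠ n : ℕ in atTop, ∀ i, n = scal d i → M ≤ i := by
  filter_upwards [eventually_gt_atTop (2 ^ M ^ 2)] with n hn i hi
  by_contra hcon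
  push Not at hcon
  have h1 := scal_le d i
  have h2 : 2 ^ i ^ 2 ≤ 2 ^ M ^ 2 :=
    Nat.pow_le_pow_right (by norm_num) (Nat.pow_le_pow_left hcon.le 2)
  omega

theorem win_poly {d i j : ℕ} (h : (Nat.unpair i).1 = j) :
    2 ^ (i + 1) ^ 2 + 2 ≤ (scal d i + 2) ^ (8 * wj d j + 1) := by
  rw [scal_eq h]
  set w := wj d j with hw
  have hw0 : 0 < w := wj_pos d j
  set s := i ^ 2 / w with hs
  have h1 : i ^ 2 < w * (s + 1) := Nat.lt_mul_div_succ _ hw0
  have h2 : (i + 1) ^ 2 ≤ 4 * w * (s + 1) := by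
    rcases Nat.eq_zero_or_pos i with h0 | h0
    · subst h0
      have : 1 ≤ w * (s + 1) := Nat.mul_pos hw0 (Nat.succ_pos _)
      calc (0 + 1) ^ 2 = 1 := by norm_num
        _ ≤ w * (s + 1) := this
        _ ≤ 4 * (w * (s + 1)) := by omega
        _ = 4 * w * (s + 1) := by ring
    · calc (i + 1) ^ 2 ≤ (2 * i) ^ 2 := Nat.pow_le_pow_left (by omega) 2
        _ = 4 * i ^ 2 := by ring
        _ ≤ 4 * (w * (s + 1)) := by omega
        _ = 4 * w * (s + 1) := by ring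
  have h3 : 2 ^ (i + 1) ^ 2 ≤ (2 ^ s + 2) ^ (8 * w) := by
    calc 2 ^ (i + 1) ^ 2 ≤ 2 ^ (4 * w * (s + 1)) := Nat.pow_le_pow_right (by norm_num) h2
      _ = (2 ^ (s + 1)) ^ (4 * w) := by rw [← pow_mul]; congr 1; ring
      _ ≤ ((2 ^ s + 2) ^ 2) ^ (4 * w) := by
          apply Nat.pow_le_pow_left
          rw [pow_succ]
          nlinarith [Nat.one_le_two_pow (n := s)]
      _ = (2 ^ s + 2) ^ (8 * w) := by rw [← pow_mul]; congr 1; ring
  have h4 : 2 ≤ (2 ^ s + 2) ^ (8 * w) := by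
    calc 2 ≤ 2 ^ s + 2 := Nat.le_add_left _ _
      _ ≤ (2 ^ s + 2) ^ (8 * w) := Nat.le_self_pow (by omega) _
  calc 2 ^ (i + 1) ^ 2 + 2 ≤ (2 ^ s + 2) ^ (8 * w) + (2 ^ s + 2) ^ (8 * w) := by omega
    _ = (2 ^ s + 2) ^ (8 * w) * 2 := by ring
    _ ≤ (2 ^ s + 2) ^ (8 * w) * (2 ^ s + 2) := Nat.mul_le_mul_left _ (Nat.le_add_left _ _)
    _ = (2 ^ s + 2) ^ (8 * w + 1) := by rw [pow_succ]

theorem ss_gap (d j : ℕ) : ∀ᶠ N : ℕ in atTop, ∃ n, SS d j n ∧ N < n ∧ n ≤ (N + 2) ^ 32 := by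
  set w := wj d j with hw
  have hw0 : 0 < w := wj_pos d j
  have hu : ∀ q, (Nat.unpair (Nat.pair j q)).1 = j := fun q => by rw [Nat.unpair_pair]
  have hlow : ∀ q, j < q → Nat.pair j q = q * q + j := fun q h => by
    unfold Nat.pair; rw [if_pos h]
  filter_upwards [eventually_ge_atTop (scal d (Nat.pair j (j + 1)))] with N hN
  have hex : ∃ q, N < scal d (Nat.pair j q) := by
    refine ⟨N * w + j + 1, ?_⟩
    rw [scal_eq (hu _), hlow _ (by omega), ← hw]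
    calc N < 2 ^ N := Nat.lt_two_pow_self
      _ ≤ 2 ^ (((N * w + j + 1) * (N * w + j + 1) + j) ^ 2 / w) := by
        apply Nat.pow_le_pow_right (by norm_num)
        rw [Nat.le_div_iff_mul_le hw0]
        have h1 : N * w ≤ (N * w + j + 1) * (N * w + j + 1) := by nlinarith
        calc N * w ≤ (N * w + j + 1) * (N * w + j + 1) + j := by omega
          _ ≤ ((N * w + j + 1) * (N * w + j + 1) + j) ^ 2 := Nat.le_self_pow (by norm_num) _
  have hspec := Nat.find_spec hex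
  set q := Nat.find hex with hq
  have hmin : ∀ q' < q, scal d (Nat.pair j q') ≤ N := fun q' h =>
    Nat.le_of_not_lt (Nat.find_min hex h)
  have hqj : j + 2 ≤ q := by
    by_contra hcon
    have h1 : q ≤ j + 1 := by omega
    rcases Nat.lt_or_ge q (j + 1) with h2 | h2
    · have h3 : scal d (Nat.pair j q) ≤ scal d (Nat.pair j (j + 1)) := by
        rw [scal_eq (hu _), scal_eq (hu _)]
        apply Nat.pow_le_pow_right (by norm_num)
        apply Nat.div_le_div_right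
        apply Nat.pow_le_pow_left
        rw [hlow _ (Nat.lt_succ_self j)]
        unfold Nat.pair
        split_ifs <;> nlinarith
      omega
    · have : q = j + 1 := by omega
      rw [this] at hspec
      omega
  obtain ⟨r, hr⟩ : ∃ r, q = r + 1 := ⟨q - 1, by omega⟩
  have hr' : j + 1 ≤ r := by omega
  have h1 := hmin r (by omega)
  refine ⟨scal d (Nat.pair j q), ⟨Nat.pair j q, hu q, rfl⟩, hspec, ?_⟩
  rw [scal_eq (hu _), ← hw] at h1 ⊢
  rw [hlow _ (by omega)] at h1 ⊢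
  set s := (r * r + j) ^ 2 / w with hs
  have h2 : (r * r + j) ^ 2 < w * (s + 1) := Nat.lt_mul_div_succ _ hw0
  have h3 : (q * q + j) ^ 2 / w ≤ 16 * (s + 1) := by
    apply Nat.div_le_of_le_mul
    have h4 : q * q + j ≤ 4 * (r * r + j) := by
      rw [hr]; nlinarith
    calc (q * q + j) ^ 2 ≤ (4 * (r * r + j)) ^ 2 := Nat.pow_le_pow_left h4 2
      _ = 16 * (r * r + j) ^ 2 := by ring
      _ ≤ 16 * (w * (s + 1)) := by omega
      _ = w * (16 * (s + 1)) := by ring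
  calc 2 ^ ((q * q + j) ^ 2 / w) ≤ 2 ^ (16 * (s + 1)) := Nat.pow_le_pow_right (by norm_num) h3
    _ = (2 ^ (s + 1)) ^ 16 := by rw [← pow_mul]; congr 1; ring
    _ ≤ ((N + 2) ^ 2) ^ 16 := by
        apply Nat.pow_le_pow_left
        rw [pow_succ]
        nlinarith
    _ = (N + 2) ^ 32 := by rw [← pow_mul]

/-- sizes in the window number `i` -/
theorem win_sizes {D : ℕ → ℕ} {d : ℕ} (hd : ∀ n, D n ≤ (n + 2) ^ d) (j : ℕ) {γ : ℝ} (hγ : 0 < γ) :
    ∀ᶠ i : ℕ in atTop, (Nat.unpair i).1 = j →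
      ((2 ^ i ^ 2 : ℕ) : ℝ) ≤ γ / 8 * ((2 ^ (i + 1) ^ 2 : ℕ) : ℝ) ∧
      (((D (scal d i) ^ tj j) ^ kj j : ℕ) : ℝ) ≤ γ / 8 * ((2 ^ (i + 1) ^ 2 : ℕ) : ℝ) := by
  obtain ⟨e₀, he₀⟩ := exists_pow_lt_of_lt_one (show 0 < γ / 8 by positivity)
    (show (1 / 2 : ℝ) < 1 by norm_num)
  set P := d * (tj j * kj j) with hP
  filter_upwards [eventually_ge_atTop e₀, eventually_ge_atTop (4 * P + 1)] with i hi1 hi2 hij
  have h1 : (1 : ℝ) ≤ γ / 8 * 2 ^ (2 * i + 1) := by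
    have h2 : (1 / 2 : ℝ) ^ (2 * i + 1) ≤ γ / 8 :=
      (pow_le_pow_of_le_one (by norm_num) (by norm_num) (by omega : e₀ ≤ 2 * i + 1)).trans he₀.le
    have h3 : (1 / 2 : ℝ) ^ (2 * i + 1) * 2 ^ (2 * i + 1) = 1 := by
      rw [← mul_pow]; norm_num
    calc (1 : ℝ) = (1 / 2 : ℝ) ^ (2 * i + 1) * 2 ^ (2 * i + 1) := h3.symm
      _ ≤ γ / 8 * 2 ^ (2 * i + 1) := by gcongr
  have h4 : ((2 ^ i ^ 2 : ℕ) : ℝ) ≤ γ / 8 * ((2 ^ (i + 1) ^ 2 : ℕ) : ℝ) := by
    push_cast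
    have : (2 : ℝ) ^ (i + 1) ^ 2 = 2 ^ (2 * i + 1) * 2 ^ i ^ 2 := by
      rw [← pow_add]; congr 1; ring
    rw [this]
    calc (2 : ℝ) ^ i ^ 2 = 1 * 2 ^ i ^ 2 := (one_mul _).symm
      _ ≤ (γ / 8 * 2 ^ (2 * i + 1)) * 2 ^ i ^ 2 := by gcongr
      _ = _ := by ring
  refine ⟨h4, ?_⟩
  refine le_trans ?_ h4
  have h5 : (D (scal d i) ^ tj j) ^ kj j ≤ 2 ^ i ^ 2 := by
    rw [scal_eq hij]
    set w := wj d j with hw
    have hw0 : 0 < w := wj_pos d j
    set s := i ^ 2 / w with hs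
    have h6 : D (2 ^ s) ≤ (2 ^ (s + 2)) ^ d := by
      refine (hd _).trans (Nat.pow_le_pow_left ?_ d)
      rw [pow_add]
      nlinarith [Nat.one_le_two_pow (n := s)]
    calc (D (2 ^ s) ^ tj j) ^ kj j ≤ (((2 ^ (s + 2)) ^ d) ^ tj j) ^ kj j :=
          Nat.pow_le_pow_left (Nat.pow_le_pow_left h6 _) _
      _ = 2 ^ ((s + 2) * P) := by
          rw [← pow_mul, ← pow_mul, ← pow_mul, hP]
      _ ≤ 2 ^ i ^ 2 := by
          apply Nat.pow_le_pow_right (by norm_num)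
          have h7 : s * w ≤ i ^ 2 := Nat.div_mul_le_self _ _
          have h8 : w = 2 * P + 1 := rfl
          have h9 : 4 * P ≤ i ^ 2 := by nlinarith
          nlinarith
  exact_mod_cast h5

/-- the number of copies for the advantage `τ` -/
def IsoT (τ : ℝ) (t : ℕ) : Prop := 0 < t ∧
    ∀ (S : ℕ → Prop) (F : ℕ → ℕ → Prop) (D : ℕ → ℕ), (∀ n, n ≤ D n) →
      (∃ d : ℕ, ∀ n, D n ≤ (n + 2) ^ d) →
      Appr S (fun n => par (F n) (D n) t) (fun n => D n ^ t) (fun _ => 1 / 2 - τ) →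
      Appr S F D (fun _ => 1 / 1024)

theorem exists_isoT {τ : ℝ} (hτ : 0 < τ) : ∃ t, IsoT τ t := by
  obtain ⟨t, ht, h⟩ := appr_isolate' hτ
  exact ⟨t, ht, fun S F D h1 h2 h3 => h S F D h1 h2 h3⟩

theorem core {F : ℕ → ℕ → Prop} {D : ℕ → ℕ} (hFD : Fam F D) {d : ℕ} {τ : ℝ} {t k c j : ℕ}
    (ht : IsoT τ t) (hj : j = Nat.pair (t - 1) k)
    {Q : ℕ → ℕ → ℕ → Prop} (hQ : Delta0 3 (fun v => Q (v 0) (v 1) (v 2)))
    (hgap : ∀ᶠ i : ℕ in atTop, (Nat.unpair i).1 = j → ∃ a s, a ≤ (2 ^ (i + 1) ^ 2 + 2) ^ c ∧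
      s ≤ 2 ^ (i + 1) ^ 2 ∧ ((k : ℝ) + 1) * τ * 2 ^ (k + 1) * ((D (scal d i) ^ t : ℕ) : ℝ) ^ (k + 1) ≤
        gap (par (F (scal d i)) (D (scal d i)) t) (D (scal d i) ^ t) (k + 1)
          (fun p b => Q a (s + p) b)) :
    Appr (SS d j) F D (fun _ => 1 / 1024) := by
  refine ht.2 _ F D hFD.le hFD.poly ?_
  have htj : tj j = t := by
    rw [hj]; unfold tj; rw [Nat.unpair_pair]; have := ht.1; simp only; omega
  set c₁ := 8 * wj d j + 1 with hc₁
  set good : ℕ → ℕ × ℕ → Prop := fun n w => w.1 ≤ ((n + 2) ^ c₁) ^ c ∧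
    w.2 ≤ (n + 2) ^ c₁ ∧ 0 < D n ∧
    ((k : ℝ) + 1) * τ * 2 ^ (k + 1) * ((D n ^ t : ℕ) : ℝ) ^ (k + 1) ≤
        gap (par (F n) (D n) t) (D n ^ t) (k + 1) (fun p b => Q w.1 (w.2 + p) b) with hgood
  have key : ∀ᶠ n in atTop, SS d j n → ∃ w, good n w := by
    obtain ⟨M, hM⟩ := eventually_atTop.1 hgap
    filter_upwards [ev_idx d M] with n hn hS
    obtain ⟨i, hij, rfl⟩ := hS
    obtain ⟨a, s, ha, hs, hg⟩ := hM i (hn i rfl) hij
    have hp := win_poly (d := d) hij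
    refine ⟨(a, s), ha.trans (Nat.pow_le_pow_left hp c), ?_, ?_, hg⟩
    · exact le_trans (le_trans hs (Nat.le_add_right _ 2)) hp
    · exact lt_of_lt_of_le (scal_pos d i) (hFD.le _)
  set w : ℕ → ℕ × ℕ := fun n => Classical.epsilon (good n) with hw
  have hwspec : ∀ᶠ n in atTop, SS d j n → good n (w n) := by
    filter_upwards [key] with n hn hS
    exact Classical.epsilon_spec (hn hS)
  refine appr_mono (S := fun n => good n (w n)) ?_ hwspec
  refine appr_of_gap (F := fun n => par (F n) (D n) t) (D := fun n => D n ^ t) (τ := τ)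
    ((Fam.polyB hFD).pow t) k (fun n => good n (w n))
    (fun n p b => Q (w n).1 ((w n).2 + p) b) (fun n hn => Nat.pow_pos hn.2.2.1) ?_
    (fun n hn => hn.2.2.2)
  have p1 : NUF 2 (fun n v => good n (w n) ∧ v 0 < (D n ^ t) ^ (k + 1) ∧ v 1 < 2 ^ (k + 1))
      (fun n _ => if good n (w n) then (w n).1 else 0) := by
    refine NUF.param ⟨c₁ * c, Eventually.of_forall fun n => ?_⟩
    show (if good n (w n) then (w n).1 else 0) ≤ _
    split_ifs with h1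
    · rw [pow_mul]; exact h1.1
    · exact Nat.zero_le _
  have p2 : NUF 2 (fun n v => good n (w n) ∧ v 0 < (D n ^ t) ^ (k + 1) ∧ v 1 < 2 ^ (k + 1))
      (fun n _ => if good n (w n) then (w n).2 else 0) := by
    refine NUF.param ⟨c₁, Eventually.of_forall fun n => ?_⟩
    show (if good n (w n) then (w n).2 else 0) ≤ _
    split_ifs with h1
    · exact h1.2.1
    · exact Nat.zero_le _
  refine (NUP.comp3 (G := fun _ a y b => Q a y b) (K := fun _ _ _ _ => True)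
    (Adv.ofDelta0 hQ) p1 (p2.add (NUF.proj 0)) (NUF.proj 1)
    (Eventually.of_forall fun _ _ _ => trivial)).congr
    (Eventually.of_forall fun n v hv => ?_)
  simp only [if_pos hv.1]

end Pool.Agent.GAvd
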