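import Mathlib
import Pool.Agent.GAvd.Core
import Pool.Agent.GAvd.Chain
import Pool.Agent.GAvd.Avoid
import Pool.Agent.Grz.Nonuniform

/-!
# Avoidance with an advantage depending on the function
-/

set_option autoImplicit false

namespace Pool.Agent.GAvd

open Finset Filter Pool.Agent.Grz Pool.Agent.GAvg
open scoped Classical

theorem of_gaps
    (H : ∀ (F : ℕ → ℕ → Prop) (D : ℕ → ℕ), Fam F D → ∀ d : ℕ, (∀ n, D n ≤ (n + 2) ^ d) →
      ∃ τ : ℝ, 0 < τ ∧ ∃ (k c : ℕ) (Q : ℕ → ℕ → ℕ → Prop),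
        Delta0 3 (fun v => Q (v 0) (v 1) (v 2)) ∧ ∀ t : ℕ, 0 < t →
        ∀ᶠ i : ℕ in atTop, (Nat.unpair i).1 = Nat.pair (t - 1) k →
          ∃ a s, a ≤ (2 ^ (i + 1) ^ 2 + 2) ^ c ∧ s ≤ 2 ^ (i + 1) ^ 2 ∧
          ((k : ℝ) + 1) * τ * 2 ^ (k + 1) * ((D (scal d i) ^ t : ℕ) : ℝ) ^ (k + 1) ≤
            gap (par (F (scal d i)) (D (scal d i)) t) (D (scal d i) ^ t) (k + 1)
              (fun p b => Q a (s + p) b)) :
    ∀ (k : ℕ) (R : (Fin k → ℕ) → Prop), Delta0 k R ↔ E2Star k R := by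
  refine (Pool.Agent.Results.MP_a56640_lc.Nonuniform.result.out 0 1).mpr ?_
  intro R hR
  obtain ⟨F, D, hFD, hch⟩ := chain hR
  obtain ⟨d, hd⟩ := hFD.poly
  obtain ⟨τ, hτ, k, c, Q, hQ, hgap⟩ := H F D hFD d hd
  obtain ⟨t, ht⟩ := exists_isoT hτ
  exact to_nonuniform' (ss_gap d _) (hch _ (core hFD ht rfl hQ (hgap t ht.1)))

theorem tj_pair {t k : ℕ} (ht : 0 < t) : tj (Nat.pair (t - 1) k) = t := by
  unfold tj; rw [Nat.unpair_pair]; simp only; omega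

theorem kj_pair {t k : ℕ} : kj (Nat.pair (t - 1) k) = k + 1 := by
  unfold kj; rw [Nat.unpair_pair]

theorem tend_win : Tendsto (fun i : ℕ => 2 ^ (i + 1) ^ 2) atTop atTop := by
  refine tendsto_atTop_mono (fun i => ?_) tendsto_id
  show i ≤ 2 ^ (i + 1) ^ 2
  calc i ≤ (i + 1) ^ 2 := by nlinarith
    _ ≤ 2 ^ (i + 1) ^ 2 := Nat.lt_two_pow_self.le

theorem win_le (i : ℕ) : 2 ^ i ^ 2 ≤ 2 ^ (i + 1) ^ 2 :=
  Nat.pow_le_pow_right (by norm_num) (Nat.pow_le_pow_left (Nat.le_succ _) 2)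

theorem avoid2 {m : ℕ} (hm : 2 ≤ m)
    (H : ∀ f : ℕ → ℕ, E2 1 (fun v => f (v 0)) → (∀ x, f x < m) →
      ∃ γ : ℝ, 0 < γ ∧ ∃ (c : ℕ) (h : ℕ → ℕ → ℕ), DFun 2 (fun v => h (v 0) (v 1)) ∧
        (∀ a x, h a x < m) ∧ ∀ᶠ N : ℕ in atTop, ∃ a : ℕ, a ≤ (N + 2) ^ c ∧
          (1 - 1 / (m : ℝ) + γ) * (N : ℝ) ≤ (#{x ∈ range N | h a x ≠ f x} : ℝ)) :
    ∀ (k : ℕ) (R : (Fin k → ℕ) → Prop), Delta0 k R ↔ E2Star k R := by
  refine of_gaps fun F D hFD d hd => ?_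
  obtain ⟨γ, hγ, c, h, hh, hhm, hev⟩ := H (fun y => code F D d y % m)
    ((e2_code hFD d).mod (E2.const m)) (fun x => Nat.mod_lt _ (by omega))
  obtain ⟨k', hk', hk8⟩ := exists_exp (show 0 < γ / 8 by positivity)
  obtain ⟨k, rfl⟩ := Nat.exists_eq_add_of_le' hk'
  have hk8' : 8 ≤ γ * 2 ^ (k + 1) := by linarith
  refine ⟨γ / (4 * (k + 1)), by positivity, k, c, fun a y b => b % m = h a y, ?_, fun t ht => ?_⟩
  · refine (Delta0.eqFun ((DFun.proj 2).mod (DFun.const (m - 1)))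
      (DFun.comp2 (g := h) hh (DFun.proj 0) (DFun.proj 1))).of_iff ?_
    intro v
    rw [Nat.sub_add_cancel (by omega : 1 ≤ m)]
  · have hm1 : (0 : ℝ) ≤ 1 - 1 / (m : ℝ) := by
      have : (1 : ℝ) / m ≤ 1 := by
        rw [div_le_one (by positivity)]
        exact_mod_cast (by omega : 1 ≤ m)
      linarith
    filter_upwards [tend_win.eventually hev, win_sizes hd (Nat.pair (t - 1) k) hγ] with i hi hsz hij
    obtain ⟨a, ha, hcnt⟩ := hi
    obtain ⟨hT, hdN⟩ := hsz hij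
    rw [tj_pair ht, kj_pair] at hdN
    have hDpos : 0 < D (scal d i) := lt_of_lt_of_le (scal_pos d i) (hFD.le _)
    rw [← Nat.count_eq_card_filter_range] at hcnt
    obtain ⟨r, hr, hcnt2⟩ := exists_block (fun x => h a x ≠ code F D d x % m) (T := 2 ^ i ^ 2)
      (d := (D (scal d i) ^ t) ^ (k + 1)) (N := 2 ^ (i + 1) ^ 2) (α := 1 - 1 / (m : ℝ)) (γ := γ)
      (by positivity) (win_le i) (by positivity) hm1 hγ hT hdN
      (hcnt.trans (le_of_eq (congrArg (Nat.cast (R := ℝ)) (count_inst fun x _ => Iff.rfl))))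
    refine ⟨a, 2 ^ i ^ 2 + r * (D (scal d i) ^ t) ^ (k + 1), ha, ?_, ?_⟩
    · have : r * (D (scal d i) ^ t) ^ (k + 1) ≤ (r + 1) * (D (scal d i) ^ t) ^ (k + 1) :=
        Nat.mul_le_mul_right _ (by omega)
      omega
    · refine le_trans (le_of_eq ?_) (gap_of_avoid (F := par (F (scal d i)) (D (scal d i)) t)
        (D := D (scal d i) ^ t) (k := k + 1) (m := m) (γ := γ) (h := h a)
        (s := 2 ^ i ^ 2 + r * (D (scal d i) ^ t) ^ (k + 1)) (by omega) (fun x => hhm a x) hk8'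
        (hcnt2.trans (le_of_eq ?_)))
      · have : ((k : ℝ) + 1) ≠ 0 := by positivity
        field_simp
      · refine congrArg (Nat.cast (R := ℝ)) (count_inst fun p hp => ?_)
        have h1 := code_block' (F := F) (D := D) (d := d) (i := i) (r := r) (p := p)
          (Nat.pair (t - 1) k) hij (by rw [tj_pair ht, kj_pair]; exact hp)
          (by rw [tj_pair ht, kj_pair]; exact hr)
        rw [tj_pair ht, kj_pair] at h1
        rw [← h1]

end Pool.Agent.GAvd
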