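import Mathlib
import Pool.Agent.GAvd.Avoid2
import Pool.Agent.GAvg.VoteDef

/-!
# Excluding one of the `2 ^ m` possible answers for `m` arguments
-/

set_option autoImplicit false

namespace Pool.Agent.GAvd

open Finset Filter Pool.Agent.Grz Pool.Agent.GAvg
open scoped Classical

theorem bits_lt : ∀ (m : ℕ) (A : Fin m → Prop), ∑ i : Fin m, 2 ^ (i : ℕ) * tv (A i) < 2 ^ m := by
  intro m
  induction m with
  | zero => intro A; simp
  | succ m ih =>
    intro A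
    rw [Fin.sum_univ_castSucc, pow_succ]
    have h1 := ih (fun i => A i.castSucc)
    have h2 := tv_lt (A (Fin.last m))
    have h3 : 2 ^ m * tv (A (Fin.last m)) ≤ 2 ^ m * 1 := Nat.mul_le_mul_left _ (by omega)
    simp only [Fin.val_castSucc, Fin.val_last]
    omega

theorem tv_inj {A B : Prop} (h : tv A = tv B) : A ↔ B := by
  unfold tv at h
  by_cases hA : A <;> by_cases hB : B <;> simp [hA, hB] at h ⊢

theorem bits_inj : ∀ (m : ℕ) (A B : Fin m → Prop),
    ∑ i : Fin m, 2 ^ (i : ℕ) * tv (A i) = ∑ i : Fin m, 2 ^ (i : ℕ) * tv (B i) →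
      ∀ i, (A i ↔ B i) := by
  intro m
  induction m with
  | zero => intro A B _ i; exact i.elim0
  | succ m ih =>
    intro A B h
    rw [Fin.sum_univ_castSucc, Fin.sum_univ_castSucc] at h
    simp only [Fin.val_castSucc, Fin.val_last] at h
    have h1 := bits_lt m (fun i => A i.castSucc)
    have h2 := bits_lt m (fun i => B i.castSucc)
    have h3 := tv_lt (A (Fin.last m))
    have h4 := tv_lt (B (Fin.last m))
    have h5 : tv (A (Fin.last m)) = tv (B (Fin.last m)) := by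
      rcases (by omega : tv (A (Fin.last m)) = 0 ∨ tv (A (Fin.last m)) = 1) with h6 | h6 <;>
      rcases (by omega : tv (B (Fin.last m)) = 0 ∨ tv (B (Fin.last m)) = 1) with h7 | h7 <;>
      rw [h6, h7] at h ⊢ <;> omega
    rw [h5] at h
    have h8 := ih (fun i => A i.castSucc) (fun i => B i.castSucc) (by omega)
    intro i
    refine Fin.lastCases ?_ (fun j => ?_) i
    · exact tv_inj h5
    · exact h8 j

theorem gap_of_freq {F : ℕ → Prop} {N m : ℕ} (hN : 0 < N) {γ : ℝ}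
    (g : Fin m → (Fin m → ℕ) → Prop)
    (hcnt : (1 - 1 / 2 ^ m + γ) * (N : ℝ) ^ m ≤
      (#{x : Fin m → Fin N | ∃ i, ¬ (g i (fun j => (x j : ℕ)) ↔ F (x i))} : ℝ)) :
    γ * 2 ^ m * (N : ℝ) ^ m ≤ gap F N m (fun p b =>
      b = ∑ i : Fin m, 2 ^ (i : ℕ) * tv (g i (fun j => p / N ^ (j : ℕ) % N))) := by
  unfold gap
  have h1 : nn N m (fun p b =>
      b = ∑ i : Fin m, 2 ^ (i : ℕ) * tv (g i (fun j => p / N ^ (j : ℕ) % N))) = N ^ m := by
    unfold nn
    calc _ = ∑ p ∈ range (N ^ m), 1 := Finset.sum_congr rfl fun p _ => ?_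
      _ = N ^ m := by simp
    rw [Finset.sum_eq_single (∑ i : Fin m, 2 ^ (i : ℕ) * tv (g i (fun j => p / N ^ (j : ℕ) % N)))]
    · exact if_pos rfl
    · intro b _ hb
      exact if_neg hb
    · intro hb
      exact absurd (mem_range.2 (bits_lt m _)) hb
  have h2 : tt' F N m (fun p b =>
      b = ∑ i : Fin m, 2 ^ (i : ℕ) * tv (g i (fun j => p / N ^ (j : ℕ) % N))) ≤
      #{x : Fin m → Fin N | ∀ i, (g i (fun j => (x j : ℕ)) ↔ F (x i))} := by
    unfold tt'
    refine le_trans (b := #{p ∈ range (N ^ m) | enc F N m p =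
      ∑ i : Fin m, 2 ^ (i : ℕ) * tv (g i (fun j => p / N ^ (j : ℕ) % N))}) (le_of_eq ?_) ?_
    · rw [Finset.card_filter]
      refine Finset.sum_congr rfl fun p _ => ?_
      congr
    refine Finset.card_le_card_of_injOn
      (fun p => fun j : Fin m => (⟨p / N ^ (j : ℕ) % N, Nat.mod_lt _ hN⟩ : Fin N)) ?_ ?_
    · intro p hp
      rw [Finset.mem_coe, mem_filter] at hp
      rw [Finset.mem_coe, mem_filter]
      refine ⟨mem_univ _, ?_⟩
      have h3 := hp.2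
      rw [enc_sum, Finset.sum_range] at h3
      intro i
      exact (bits_inj m (fun i => F (p / N ^ (i : ℕ) % N)) _ h3 i).symm
    · intro p hp q hq hpq
      rw [Finset.mem_coe, mem_filter, mem_range] at hp hq
      have h4 : (finFunctionFinEquiv.symm (⟨p, hp.1⟩ : Fin (N ^ m)) : Fin m → Fin N) =
          finFunctionFinEquiv.symm (⟨q, hq.1⟩ : Fin (N ^ m)) := by
        funext j
        have := congrFun hpq j
        exact this
      have h5 := finFunctionFinEquiv.symm.injective h4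
      exact congrArg Fin.val h5
  have h3 := Finset.card_filter_add_card_filter_not (s := (univ : Finset (Fin m → Fin N)))
    (fun x => ∀ i, (g i (fun j => (x j : ℕ)) ↔ F (x i)))
  have h4 : (#{x : Fin m → Fin N | ¬ ∀ i, (g i (fun j => (x j : ℕ)) ↔ F (x i))} : ℕ) =
      #{x : Fin m → Fin N | ∃ i, ¬ (g i (fun j => (x j : ℕ)) ↔ F (x i))} := by
    congr 1
    ext x
    simp only [mem_filter, mem_univ, true_and, not_forall]
  rw [h4] at h3
  have h5 : (#(univ : Finset (Fin m → Fin N)) : ℝ) = (N : ℝ) ^ m := by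
    rw [Finset.card_univ, Fintype.card_fun, Fintype.card_fin, Fintype.card_fin]
    push_cast
    rfl
  have h6 : ((#{x : Fin m → Fin N | ∀ i, (g i (fun j => (x j : ℕ)) ↔ F (x i))} : ℕ) : ℝ) +
      ((#{x : Fin m → Fin N | ∃ i, ¬ (g i (fun j => (x j : ℕ)) ↔ F (x i))} : ℕ) : ℝ)
      = (N : ℝ) ^ m := by
    rw [← h5]
    exact_mod_cast h3
  have h7 : (tt' F N m (fun p b =>
      b = ∑ i : Fin m, 2 ^ (i : ℕ) * tv (g i (fun j => p / N ^ (j : ℕ) % N))) : ℝ) ≤
      ((#{x : Fin m → Fin N | ∀ i, (g i (fun j => (x j : ℕ)) ↔ F (x i))} : ℕ) : ℝ) := by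
    exact_mod_cast h2
  rw [h1]
  push_cast
  have h8 : (tt' F N m (fun p b =>
      b = ∑ i : Fin m, 2 ^ (i : ℕ) * tv (g i (fun j => p / N ^ (j : ℕ) % N))) : ℝ) ≤
      (1 / 2 ^ m - γ) * (N : ℝ) ^ m := by nlinarith
  have h9 : (2 : ℝ) ^ m * (tt' F N m (fun p b =>
      b = ∑ i : Fin m, 2 ^ (i : ℕ) * tv (g i (fun j => p / N ^ (j : ℕ) % N))) : ℝ) ≤
      2 ^ m * ((1 / 2 ^ m - γ) * (N : ℝ) ^ m) := mul_le_mul_of_nonneg_left h8 (by positivity)
  have h10 : (2 : ℝ) ^ m * ((1 / 2 ^ m - γ) * (N : ℝ) ^ m) = (N : ℝ) ^ m - γ * 2 ^ m * (N : ℝ) ^ m := by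
    field_simp
  linarith

theorem freq_appr {R : ℕ → Prop} {m : ℕ} (hm : 1 ≤ m) {γ : ℝ} (hγ : 0 < γ) {c : ℕ}
    {ψ : Fin m → (Fin (m + 1) → ℕ) → Prop} (hψ : ∀ i, Delta0 (m + 1) (ψ i))
    (H : ∀ᶠ N : ℕ in atTop, ∃ a : ℕ, a ≤ (N + 2) ^ c ∧
      (1 - 1 / 2 ^ m + γ) * (N : ℝ) ^ m ≤
        (#{x : Fin m → Fin N | ∃ i, ¬ (ψ i (Fin.cons a fun j => (x j : ℕ)) ↔ R (x i))} : ℝ)) :
    ∃ τ : ℝ, 0 < τ ∧ Appr (fun _ => True) (fun _ => R) (fun n => n) (fun _ => 1 / 2 - τ) := by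
  obtain ⟨k, rfl⟩ := Nat.exists_eq_add_of_le' hm
  refine ⟨γ / (k + 1), by positivity, ?_⟩
  set good : ℕ → ℕ → Prop := fun n a => a ≤ (n + 2) ^ c ∧ 0 < n ∧
    (1 - 1 / 2 ^ (k + 1) + γ) * (n : ℝ) ^ (k + 1) ≤
      (#{x : Fin (k + 1) → Fin n | ∃ i, ¬ (ψ i (Fin.cons a fun j => (x j : ℕ)) ↔ R (x i))} : ℝ)
    with hgood
  set w : ℕ → ℕ := fun n => Classical.epsilon (good n) with hwdef
  have hw : ∀ᶠ n in atTop, True → good n (w n) := by
    filter_upwards [H, eventually_gt_atTop 0] with n hn h0 _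
    obtain ⟨a, h1, h2⟩ := hn
    exact Classical.epsilon_spec (p := good n) ⟨a, h1, h0, h2⟩
  refine appr_mono (S := fun n => good n (w n)) ?_ hw
  refine appr_of_gap (τ := γ / (k + 1)) PolyB.id k (fun n => good n (w n))
    (fun n p b => b = ∑ i : Fin (k + 1), 2 ^ (i : ℕ) *
      tv (ψ i (Fin.cons (w n) (fun j => p / n ^ (j : ℕ) % n))))
    (fun n hn => hn.2.1) ?_ ?_
  · have p1 : NUF 2 (fun n v => good n (w n) ∧ v 0 < n ^ (k + 1) ∧ v 1 < 2 ^ (k + 1))
        (fun n _ => if good n (w n) then w n else 0) := by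
      refine NUF.param ⟨c, Eventually.of_forall fun n => ?_⟩
      show (if good n (w n) then w n else 0) ≤ _
      split_ifs with h1
      · exact h1.1
      · exact Nat.zero_le _
    have p2 : ∀ j : Fin (k + 1), NUF 2
        (fun n v => good n (w n) ∧ v 0 < n ^ (k + 1) ∧ v 1 < 2 ^ (k + 1))
        (fun n v => v 0 / n ^ (j : ℕ) % n) := fun j =>
      ((NUF.proj 0).div (NUF.param (PolyB.id.pow j))).mod (NUF.param PolyB.id)
    have p3 : ∀ i : Fin (k + 1), NUP 2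
        (fun n v => good n (w n) ∧ v 0 < n ^ (k + 1) ∧ v 1 < 2 ^ (k + 1))
        (fun n v => ψ i (Fin.cons (w n) (fun j => v 0 / n ^ (j : ℕ) % n))) := by
      intro i
      have := NUP.subst (m := k + 1 + 1) (K := fun _ _ => True) (Adv.ofDelta0 (hψ i))
        (C := fun n v => good n (w n) ∧ v 0 < n ^ (k + 1) ∧ v 1 < 2 ^ (k + 1))
        (h := (Fin.cons (fun n (_ : Fin 2 → ℕ) => if good n (w n) then w n else 0)
          (fun j n v => v 0 / n ^ (j : ℕ) % n) : Fin (k + 1 + 1) → ℕ → (Fin 2 → ℕ) → ℕ))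
        (fun l => by
          refine Fin.cases ?_ (fun l => ?_) l
          · exact p1
          · exact p2 l)
        (Eventually.of_forall fun _ _ _ => trivial)
      refine this.congr (Eventually.of_forall fun n v hv => ?_)
      have e : (fun l : Fin (k + 1 + 1) => (Fin.cons (fun n (_ : Fin 2 → ℕ) =>
          if good n (w n) then w n else 0) (fun j n v => v 0 / n ^ (j : ℕ) % n) :
            Fin (k + 1 + 1) → ℕ → (Fin 2 → ℕ) → ℕ) l n v)
          = Fin.cons (w n) (fun j => v 0 / n ^ (j : ℕ) % n) := by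
        funext l
        refine Fin.cases ?_ (fun l => ?_) l
        · simp only [Fin.cons_zero, if_pos hv.1]
        · simp only [Fin.cons_succ]
      rw [e]
    refine NUP.eqFun (NUF.proj 1) (NUF.finSum fun i => (NUF.const (2 ^ (i : ℕ))).mul ?_)
    exact NUF.ite (p3 i) (NUF.const 1) (NUF.const 0)
  · intro n hn
    refine le_trans (le_of_eq ?_) (gap_of_freq (F := R) (m := k + 1) hn.2.1 (γ := γ)
      (fun i x => ψ i (Fin.cons (w n) x)) hn.2.2)
    have : ((k : ℝ) + 1) ≠ 0 := by positivity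
    field_simp

/-- a predictor avoids -/
theorem avoid_of_appr {f : ℕ → ℕ} {τ : ℝ}
    (h : Appr (fun _ => True) (fun _ x => f x = 1) (fun n => n) (fun _ => 1 / 2 - τ)) :
    ∃ (c : ℕ) (h : ℕ → ℕ → ℕ), DFun 2 (fun v => h (v 0) (v 1)) ∧
        (∀ a x, h a x < 2) ∧ ∀ᶠ N : ℕ in atTop, ∃ a : ℕ, a ≤ (N + 2) ^ c ∧
          (1 - 1 / 2 + τ) * (N : ℝ) ≤ (#{x ∈ range N | h a x ≠ f x} : ℝ) := by
  obtain ⟨P, ⟨c', φ, hφ, hP⟩, herr⟩ := h
  obtain ⟨g, hg⟩ : ∃ g : ℕ → ℕ → ℕ, ∀ a x, g a x = if φ ![a, x] then 0 else 1 :=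
    ⟨fun a x => if φ ![a, x] then 0 else 1, fun _ _ => rfl⟩
  have hφ' : Delta0 2 (fun v => φ ![v 0, v 1]) := by
    refine hφ.of_iff fun v => ?_
    have : ![v 0, v 1] = v := by
      funext i; fin_cases i <;> rfl
    rw [this]
  refine ⟨c', g, ?_, ?_, ?_⟩
  · have h1 := DFun.ite hφ' (DFun.const 0) (DFun.const 1)
    have e : (fun v : Fin 2 → ℕ => g (v 0) (v 1)) = fun v => if φ ![v 0, v 1] then 0 else 1 := by
      funext v
      exact hg _ _
    rw [e]
    exact h1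
  · intro a x
    rw [hg]
    split_ifs <;> norm_num
  · filter_upwards [hP, herr] with N h1 h2
    obtain ⟨a, ha, h3⟩ := h1
    refine ⟨a, ha, ?_⟩
    have h4 : ((#{x ∈ range N | ¬ (P N x ↔ f x = 1)} : ℕ) : ℝ) ≤ (1 / 2 - τ) * (N : ℝ) := by
      refine le_trans (le_of_eq ?_) (h2 trivial)
      congr!
    have h5 := Finset.card_filter_add_card_filter_not (s := range N) (fun x => g a x ≠ f x)
    rw [card_range] at h5
    have h6 : #{x ∈ range N | ¬ g a x ≠ f x} ≤ #{x ∈ range N | ¬ (P N x ↔ f x = 1)} := by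
      refine Finset.card_le_card ?_
      intro x hx
      rw [mem_filter, mem_range] at hx ⊢
      refine ⟨hx.1, ?_⟩
      have h7 : (φ ![a, x] ↔ P N x) := h3 ![x] ⟨trivial, hx.1⟩
      have h8 := not_not.1 hx.2
      rw [← h7]
      rw [hg] at h8
      by_cases hφx : φ ![a, x]
      · rw [if_pos hφx] at h8
        simp only [hφx, true_iff]
        omega
      · rw [if_neg hφx] at h8
        simp only [hφx, false_iff, not_not]
        omega
    have h9 : ((#{x ∈ range N | g a x ≠ f x} : ℕ) : ℝ) +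
        ((#{x ∈ range N | ¬ g a x ≠ f x} : ℕ) : ℝ) = N := by
      exact_mod_cast h5
    have h10 : ((#{x ∈ range N | ¬ g a x ≠ f x} : ℕ) : ℝ) ≤
        ((#{x ∈ range N | ¬ (P N x ↔ f x = 1)} : ℕ) : ℝ) := by exact_mod_cast h6
    have h11 : (1 - 1 / 2 + τ) * (N : ℝ) = N - (1 / 2 - τ) * N := by ring
    rw [h11]
    linarith

/-- excluding one of the possible answers -/
theorem freq2
    (H : ∀ R : ℕ → Prop, E2Star 1 (fun v => R (v 0)) →
      ∃ m : ℕ, 1 ≤ m ∧ ∃ γ : ℝ, 0 < γ ∧ ∃ (c : ℕ) (ψ : Fin m → (Fin (m + 1) → ℕ) → Prop),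
        (∀ i, Delta0 (m + 1) (ψ i)) ∧ ∀ᶠ N : ℕ in atTop, ∃ a : ℕ, a ≤ (N + 2) ^ c ∧
          (1 - 1 / 2 ^ m + γ) * (N : ℝ) ^ m ≤
            (#{x : Fin m → Fin N |
              ∃ i, ¬ (ψ i (Fin.cons a fun j => (x j : ℕ)) ↔ R (x i))} : ℝ)) :
    ∀ (k : ℕ) (R : (Fin k → ℕ) → Prop), Delta0 k R ↔ E2Star k R := by
  refine avoid2 (m := 2) le_rfl fun f hf hf2 => ?_
  obtain ⟨m, hm, γ, hγ, c, ψ, hψ, hev⟩ := H (fun x => f x = 1) (E2Star.eqFun hf (E2.const 1))
  obtain ⟨τ, hτ, happr⟩ := freq_appr (R := fun x => f x = 1) (m := m) hm hγ hψ hev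
  obtain ⟨c', g, hg, hg2, hgev⟩ := avoid_of_appr happr
  refine ⟨τ, hτ, c', g, hg, hg2, ?_⟩
  filter_upwards [hgev] with N hN
  obtain ⟨a, ha, h1⟩ := hN
  refine ⟨a, ha, le_trans (le_of_eq ?_) h1⟩
  push_cast
  ring

end Pool.Agent.GAvd
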