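import Mathlib
import Pool.Agent.GAvd.Final

/-!
# A dense bounded-formula set of incompressible numbers gives approximation
-/

set_option autoImplicit false

namespace Pool.Agent.GAvd

open Finset Filter Pool.Agent.Grz Pool.Agent.GAvg
open scoped Classical

theorem gap_of_dense {F : ℕ → Prop} {D k : ℕ} {δ : ℝ} {h : ℕ → Prop} {s : ℕ}
    (h0 : ∀ p, p < D ^ k → ¬ h (2 ^ k * (s + p) + enc F D k p))
    (hcnt : δ * ((2 ^ k * D ^ k : ℕ) : ℝ) ≤
      (Nat.count (fun t => h (2 ^ k * s + t)) (2 ^ k * D ^ k) : ℝ)) :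
    δ * 2 ^ k * (D : ℝ) ^ k ≤ gap F D k (fun p b => h (2 ^ k * (s + p) + b)) := by
  unfold gap
  have h1 : tt' F D k (fun p b => h (2 ^ k * (s + p) + b)) = 0 := by
    unfold tt'
    refine Finset.sum_eq_zero fun p hp => ?_
    rw [if_neg (h0 p (mem_range.1 hp))]
  have h2 : nn D k (fun p b => h (2 ^ k * (s + p) + b)) =
      Nat.count (fun t => h (2 ^ k * s + t)) (2 ^ k * D ^ k) := by
    rw [Nat.count_eq_card_filter_range, Finset.card_filter, sum_split, Finset.sum_comm]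
    unfold nn
    refine Finset.sum_congr rfl fun p _ => Finset.sum_congr rfl fun b _ => ?_
    have : 2 ^ k * (s + p) + b = 2 ^ k * s + (b + 2 ^ k * p) := by ring
    simp only [this]
  rw [h1, h2]
  push_cast at hcnt ⊢
  linarith

theorem appr_kolm {κ : ℕ} (hκ : 1 ≤ κ) {δ : ℝ} (hδ : 0 < δ)
    (H : ∀ g : ℕ → ℕ, E2 1 (fun v => g (v 0)) →
      ∃ (c : ℕ) (ψ : (Fin 2 → ℕ) → Prop), Delta0 2 ψ ∧
        ∀ᶠ N : ℕ in atTop, ∃ a : ℕ, a ≤ (N + 2) ^ c ∧
          (∀ x, x < N → ψ ![a, x] → ∀ p, 2 ^ κ * p ≤ x → g p ≠ x) ∧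
          δ * (N : ℝ) ≤ (#{x ∈ range N | ψ ![a, x]} : ℝ)) :
    ∃ τ : ℝ, 0 < τ ∧ ∃ e : ℕ, 0 < e ∧ ∀ (F : ℕ → ℕ → Prop) (D : ℕ → ℕ), Fam F D →
      Appr (fun n => ∃ j, n = 2 ^ (e * j)) F D (fun _ => 1 / 2 - τ) := by
  obtain ⟨k, rfl⟩ := Nat.exists_eq_add_of_le' hκ
  refine ⟨δ / (2 * (k + 1)), by positivity, ?_⟩
  obtain ⟨e, hepos, he⟩ := exists_sizes hδ (k + 1)
  refine ⟨e, hepos, fun F D hFD => ?_⟩
  obtain ⟨E, hE⟩ := he F D hFD
  obtain ⟨G, hG2, hGlt, hG⟩ := exists_code hFD e E (k + 1) hE.pos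
  obtain ⟨c, ψ, hψ, hev⟩ := H (fun y => 2 ^ (k + 1) * y + G y)
    (((E2.const (2 ^ (k + 1))).mul (E2.proj 0)).add hG2)
  set c₁ := (k + 1) + ((e + 1) * E + 1) with hc₁
  have hpoly : ∀ n : ℕ, 2 ^ (k + 1) * (2 ^ e * n) ^ E + 2 ≤ (n + 2) ^ c₁ := by
    intro n
    have h1 := hE.poly n
    have h2 : 2 ^ (k + 1) ≤ (n + 2) ^ (k + 1) := Nat.pow_le_pow_left (by omega) _
    have h3 : 1 ≤ 2 ^ (k + 1) := Nat.one_le_two_pow
    calc 2 ^ (k + 1) * (2 ^ e * n) ^ E + 2 ≤ 2 ^ (k + 1) * ((2 ^ e * n) ^ E + 2) := by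
          rw [Nat.mul_add]; omega
      _ ≤ (n + 2) ^ (k + 1) * (n + 2) ^ ((e + 1) * E + 1) := Nat.mul_le_mul h2 h1
      _ = (n + 2) ^ c₁ := by rw [← pow_add]
  set good : ℕ → ℕ × ℕ → Prop := fun n w => w.1 ≤ ((n + 2) ^ c₁) ^ c ∧
    w.2 ≤ (n + 2) ^ c₁ ∧ 0 < D n ∧
    δ / 2 * 2 ^ (k + 1) * (D n : ℝ) ^ (k + 1) ≤
      gap (F n) (D n) (k + 1) (fun p b => ψ ![w.1, 2 ^ (k + 1) * (w.2 + p) + b]) with hgood
  have htend : Tendsto (fun n : ℕ => 2 ^ (k + 1) * (2 ^ e * n) ^ E) atTop atTop :=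
    tendsto_atTop_mono (fun n => Nat.le_mul_of_pos_left _ (by positivity)) hE.tend
  have key : ∀ᶠ n in atTop, (∃ j, n = 2 ^ (e * j)) → ∃ w, good n w := by
    filter_upwards [htend.eventually hev, hE.ev, eventually_ge_atTop 1] with n hn hsz hn1 hS
    obtain ⟨a, ha, hinc, hcnt⟩ := hn
    obtain ⟨hTN, hNpos, hT, hdN⟩ := hsz
    have hDpos : 0 < D n := lt_of_lt_of_le (by omega) (hFD.le n)
    have hK0 : (0 : ℝ) ≤ 2 ^ (k + 1) := by positivity
    rw [← Nat.count_eq_card_filter_range] at hcnt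
    obtain ⟨i, hi, hcnt2⟩ := exists_block (fun x => ψ ![a, x]) (T := 2 ^ (k + 1) * n ^ E)
      (d := 2 ^ (k + 1) * D n ^ (k + 1)) (N := 2 ^ (k + 1) * (2 ^ e * n) ^ E) (α := 0) (γ := δ)
      (by positivity) (Nat.mul_le_mul_left _ hTN) (by positivity) le_rfl hδ
      (by
        push_cast at hT ⊢
        have := mul_le_mul_of_nonneg_left hT hK0
        linarith)
      (by
        push_cast at hdN ⊢
        have := mul_le_mul_of_nonneg_left hdN hK0
        linarith)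
      (by
        rw [zero_add]
        exact hcnt.trans (le_of_eq (congrArg (Nat.cast (R := ℝ)) (count_inst fun x _ => Iff.rfl))))
    have hi' : n ^ E + (i + 1) * D n ^ (k + 1) ≤ (2 ^ e * n) ^ E := by
      have h1 : 2 ^ (k + 1) * (n ^ E + (i + 1) * D n ^ (k + 1)) ≤
          2 ^ (k + 1) * (2 ^ e * n) ^ E := by
        refine le_trans (le_of_eq ?_) hi
        ring
      exact Nat.le_of_mul_le_mul_left h1 (by positivity)
    have hsplit : (i + 1) * D n ^ (k + 1) = i * D n ^ (k + 1) + D n ^ (k + 1) := by ring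
    refine ⟨(a, n ^ E + i * D n ^ (k + 1)), ?_, ?_, hDpos, ?_⟩
    · exact ha.trans (Nat.pow_le_pow_left (hpoly n) c)
    · have h1 : n ^ E + i * D n ^ (k + 1) ≤ (2 ^ e * n) ^ E := by omega
      have h2 : (2 ^ e * n) ^ E ≤ 2 ^ (k + 1) * (2 ^ e * n) ^ E :=
        Nat.le_mul_of_pos_left _ (by positivity)
      have := hpoly n
      show n ^ E + i * D n ^ (k + 1) ≤ _
      omega
    · refine gap_of_dense (h := fun x => ψ ![a, x]) (s := n ^ E + i * D n ^ (k + 1)) ?_ ?_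
      · intro p hp hx
        have hcb := code_block (F := F) (e := e) (E := E) (i := i) hG hS hp hi'
        have hlt : enc (F n) (D n) (k + 1) p < 2 ^ (k + 1) := enc_lt _ _ _ _
        refine hinc _ ?_ hx (n ^ E + i * D n ^ (k + 1) + p) (Nat.le_add_right _ _) ?_
        · have h1 : n ^ E + i * D n ^ (k + 1) + p + 1 ≤ (2 ^ e * n) ^ E := by omega
          calc 2 ^ (k + 1) * (n ^ E + i * D n ^ (k + 1) + p) + enc (F n) (D n) (k + 1) p
              < 2 ^ (k + 1) * (n ^ E + i * D n ^ (k + 1) + p + 1) := by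
                rw [Nat.mul_add _ _ 1, Nat.mul_one]; omega
            _ ≤ 2 ^ (k + 1) * (2 ^ e * n) ^ E := Nat.mul_le_mul_left _ h1
        · show 2 ^ (k + 1) * (n ^ E + i * D n ^ (k + 1) + p) + G (n ^ E + i * D n ^ (k + 1) + p) = _
          rw [hcb]
      · rw [zero_add] at hcnt2
        refine hcnt2.trans (le_of_eq (congrArg (Nat.cast (R := ℝ)) (count_inst fun x _ => ?_)))
        have : 2 ^ (k + 1) * n ^ E + i * (2 ^ (k + 1) * D n ^ (k + 1)) + x =
            2 ^ (k + 1) * (n ^ E + i * D n ^ (k + 1)) + x := by ring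
        rw [this]
  set w : ℕ → ℕ × ℕ := fun n => Classical.epsilon (good n) with hw
  have hwspec : ∀ᶠ n in atTop, (∃ j, n = 2 ^ (e * j)) → good n (w n) := by
    filter_upwards [key] with n hn hS
    exact Classical.epsilon_spec (hn hS)
  refine appr_mono (S := fun n => good n (w n)) ?_ hwspec
  refine appr_of_gap (τ := δ / (2 * (k + 1))) (Fam.polyB hFD) k (fun n => good n (w n))
    (fun n p b => ψ ![(w n).1, 2 ^ (k + 1) * ((w n).2 + p) + b]) (fun n hn => hn.2.2.1) ?_ ?_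
  · have p1 : NUF 2 (fun n v => good n (w n) ∧ v 0 < D n ^ (k + 1) ∧ v 1 < 2 ^ (k + 1))
        (fun n _ => if good n (w n) then (w n).1 else 0) := by
      refine NUF.param ⟨c₁ * c, Eventually.of_forall fun n => ?_⟩
      show (if good n (w n) then (w n).1 else 0) ≤ _
      split_ifs with h1
      · rw [pow_mul]; exact h1.1
      · exact Nat.zero_le _
    have p2 : NUF 2 (fun n v => good n (w n) ∧ v 0 < D n ^ (k + 1) ∧ v 1 < 2 ^ (k + 1))
        (fun n _ => if good n (w n) then (w n).2 else 0) := by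
      refine NUF.param ⟨c₁, Eventually.of_forall fun n => ?_⟩
      show (if good n (w n) then (w n).2 else 0) ≤ _
      split_ifs with h1
      · exact h1.2.1
      · exact Nat.zero_le _
    have hψ' : Delta0 2 (fun v => ψ ![v 0, v 1]) := by
      refine hψ.of_iff ?_
      intro v
      have : ![v 0, v 1] = v := by
        funext i; fin_cases i <;> rfl
      rw [this]
    refine (NUP.map2 (k := fun a x => ψ ![a, x]) hψ' p1
      (((NUF.const (2 ^ (k + 1))).mul (p2.add (NUF.proj 0))).add (NUF.proj 1))).congr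
      (Eventually.of_forall fun n v hv => ?_)
    simp only [if_pos hv.1]
  · intro n hn
    refine le_trans (le_of_eq ?_) hn.2.2.2
    have : ((k : ℝ) + 1) ≠ 0 := by positivity
    field_simp

end Pool.Agent.GAvd
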