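import Mathlib
import Pool.Agent.GAvd.Avoid2
import Pool.Agent.GAvd.Kolm

/-!
# Dense bounded-formula sets of incompressible numbers; the density depends on the function
-/

set_option autoImplicit false

namespace Pool.Agent.GAvd

open Finset Filter Pool.Agent.Grz Pool.Agent.GAvg
open scoped Classical

theorem kolm2 {κ : ℕ} (hκ : 1 ≤ κ)
    (H : ∀ g : ℕ → ℕ, E2 1 (fun v => g (v 0)) →
      ∃ δ : ℝ, 0 < δ ∧ ∃ (c : ℕ) (ψ : (Fin 2 → ℕ) → Prop), Delta0 2 ψ ∧
        ∀ᶠ N : ℕ in atTop, ∃ a : ℕ, a ≤ (N + 2) ^ c ∧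
          (∀ x, x < N → ψ ![a, x] → ∀ p, 2 ^ κ * p ≤ x → g p ≠ x) ∧
          δ * (N : ℝ) ≤ (#{x ∈ range N | ψ ![a, x]} : ℝ)) :
    ∀ (k : ℕ) (R : (Fin k → ℕ) → Prop), Delta0 k R ↔ E2Star k R := by
  obtain ⟨k, rfl⟩ := Nat.exists_eq_add_of_le' hκ
  refine of_gaps fun F D hFD d hd => ?_
  obtain ⟨δ, hδ, c, ψ, hψ, hev⟩ := H (fun y => 2 ^ (k + 1) * y + code F D d y % 2 ^ (k + 1))
    (((E2.const (2 ^ (k + 1))).mul (E2.proj 0)).add
      ((e2_code hFD d).mod (E2.const (2 ^ (k + 1)))))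
  refine ⟨δ / (2 * (k + 1)), by positivity, k, (k + 2) * c,
    fun a y b => ψ ![a, 2 ^ (k + 1) * y + b], ?_, fun t ht => ?_⟩
  · have hψ' : Delta0 2 (fun v => ψ ![v 0, v 1]) := by
      refine hψ.of_iff ?_
      intro v
      have : ![v 0, v 1] = v := by
        funext i; fin_cases i <;> rfl
      rw [this]
    exact Delta0.comp2 (P := fun a x => ψ ![a, x]) hψ' (DFun.proj 0)
      (((DFun.const (2 ^ (k + 1))).mul (DFun.proj 1)).add (DFun.proj 2))
  · have htend : Tendsto (fun i : ℕ => 2 ^ (k + 1) * 2 ^ (i + 1) ^ 2) atTop atTop :=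
      tendsto_atTop_mono (fun n => Nat.le_mul_of_pos_left _ (by positivity)) tend_win
    filter_upwards [htend.eventually hev, win_sizes hd (Nat.pair (t - 1) k) hδ] with i hi hsz hij
    obtain ⟨a, ha, hinc, hcnt⟩ := hi
    obtain ⟨hT, hdN⟩ := hsz hij
    rw [tj_pair ht, kj_pair] at hdN
    have hDpos : 0 < D (scal d i) := lt_of_lt_of_le (scal_pos d i) (hFD.le _)
    have hK0 : (0 : ℝ) ≤ 2 ^ (k + 1) := by positivity
    rw [← Nat.count_eq_card_filter_range] at hcnt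
    obtain ⟨r, hr, hcnt2⟩ := exists_block (fun x => ψ ![a, x]) (T := 2 ^ (k + 1) * 2 ^ i ^ 2)
      (d := 2 ^ (k + 1) * (D (scal d i) ^ t) ^ (k + 1)) (N := 2 ^ (k + 1) * 2 ^ (i + 1) ^ 2)
      (α := 0) (γ := δ) (by positivity) (Nat.mul_le_mul_left _ (win_le i)) (by positivity) le_rfl
      hδ
      (by
        push_cast at hT ⊢
        have := mul_le_mul_of_nonneg_left hT hK0
        linarith)
      (by
        push_cast at hdN ⊢
        have := mul_le_mul_of_nonneg_left hdN hK0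
        linarith)
      (by
        rw [zero_add]
        exact hcnt.trans (le_of_eq (congrArg (Nat.cast (R := ℝ)) (count_inst fun x _ => Iff.rfl))))
    set E := (D (scal d i) ^ t) ^ (k + 1) with hE
    have hi' : 2 ^ i ^ 2 + (r + 1) * E ≤ 2 ^ (i + 1) ^ 2 := by
      have h1 : 2 ^ (k + 1) * (2 ^ i ^ 2 + (r + 1) * E) ≤ 2 ^ (k + 1) * 2 ^ (i + 1) ^ 2 := by
        refine le_trans (le_of_eq ?_) hr
        ring
      exact Nat.le_of_mul_le_mul_left h1 (by positivity)
    have hsplit : (r + 1) * E = r * E + E := by ring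
    refine ⟨a, 2 ^ i ^ 2 + r * E, ?_,
      le_trans (Nat.add_le_add_left (Nat.mul_le_mul_right _ (Nat.le_succ r)) _) hi', ?_⟩
    · refine ha.trans ?_
      rw [pow_mul]
      refine Nat.pow_le_pow_left ?_ c
      set X := 2 ^ (i + 1) ^ 2
      have h2 : 2 ^ (k + 1) ≤ (X + 2) ^ (k + 1) := Nat.pow_le_pow_left (Nat.le_add_left _ _) _
      have h3 : 1 ≤ 2 ^ (k + 1) := Nat.one_le_two_pow
      calc 2 ^ (k + 1) * X + 2 ≤ 2 ^ (k + 1) * (X + 2) := by
            rw [Nat.mul_add]; omega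
        _ ≤ (X + 2) ^ (k + 1) * (X + 2) := Nat.mul_le_mul_right _ h2
        _ = (X + 2) ^ (k + 2) := by rw [← pow_succ]
    · refine le_trans (le_of_eq ?_) (gap_of_dense (F := par (F (scal d i)) (D (scal d i)) t)
        (D := D (scal d i) ^ t) (k := k + 1) (δ := δ / 2) (h := fun x => ψ ![a, x])
        (s := 2 ^ i ^ 2 + r * E) ?_ ?_)
      · have : ((k : ℝ) + 1) ≠ 0 := by positivity
        field_simp
      · intro p hp hx
        have hcb := code_block' (F := F) (D := D) (d := d) (i := i) (r := r) (p := p)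
          (Nat.pair (t - 1) k) hij (by rw [tj_pair ht, kj_pair]; exact hp)
          (by rw [tj_pair ht, kj_pair]; exact hi')
        rw [tj_pair ht, kj_pair, ← hE] at hcb
        set z := enc (par (F (scal d i)) (D (scal d i)) t) (D (scal d i) ^ t) (k + 1) p with hz
        have hlt : z < 2 ^ (k + 1) := enc_lt _ _ _ _
        refine hinc _ ?_ hx (2 ^ i ^ 2 + r * E + p) (Nat.le_add_right _ _) ?_
        · have h1 : 2 ^ i ^ 2 + r * E + p + 1 ≤ 2 ^ (i + 1) ^ 2 := by omega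
          calc 2 ^ (k + 1) * (2 ^ i ^ 2 + r * E + p) + z
              < 2 ^ (k + 1) * (2 ^ i ^ 2 + r * E + p + 1) := by
                rw [Nat.mul_add _ _ 1, Nat.mul_one]; omega
            _ ≤ 2 ^ (k + 1) * 2 ^ (i + 1) ^ 2 := Nat.mul_le_mul_left _ h1
        · show 2 ^ (k + 1) * (2 ^ i ^ 2 + r * E + p) +
            code F D d (2 ^ i ^ 2 + r * E + p) % 2 ^ (k + 1) = _
          rw [hcb, Nat.mod_eq_of_lt hlt]
      · rw [zero_add] at hcnt2
        refine hcnt2.trans (le_of_eq (congrArg (Nat.cast (R := ℝ)) (count_inst fun x _ => ?_)))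
        have : 2 ^ (k + 1) * 2 ^ i ^ 2 + r * (2 ^ (k + 1) * E) + x =
            2 ^ (k + 1) * (2 ^ i ^ 2 + r * E) + x := by ring
        rw [this]

end Pool.Agent.GAvd
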